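import Pool.Agent.RZ.RCN.KleA

/-! The density bound of the certified process with polynomial majorants of the density errors
(MP_73ccd0_lc, route M). -/

set_option autoImplicit false
set_option linter.unusedSectionVars false

namespace Pool.Agent.RZ.RCN.K

open Set Finset MeasureTheory

open Pool.Agent.RZ.RCN

/-- `bq` bounds the density rates -/
structure BqOk (b0 b1 : ℝ → ℝ) (bt : ℝ) (bq : ℝ → ℝ) : Prop where
  one : ∀ r ∈ Icc 0 bt, 1 ≤ (1 + r) * bq r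
  v0 : ∀ r ∈ Icc 0 bt, b0 r ≤ (1 + r) * bq r
  v1 : ∀ r ∈ Icc 0 bt, 1 + (b0 r - 1) / 2 + b1 r / 2 ≤ (1 + r) * bq r
  v2 : ∀ r ∈ Icc 0 bt, 1 + b1 r / 2 ≤ (1 + r) * bq r

theorem BqOk.le {b0 b1 : ℝ → ℝ} {bt : ℝ} {bq : ℝ → ℝ} (h : BqOk b0 b1 bt bq) {y r : ℝ}
    (hy : y ∈ Icc (0 : ℝ) 1) (hr : r ∈ Icc 0 bt) :
    1 + (1 - y) * (b0 r - 1) + eta y * b1 r ≤ (1 + r) * bq r := by
  have h0 := h.v0 r hr
  have h1 := h.v1 r hr
  have h2 := h.v2 r hr
  rcases le_total y (1 / 2) with hc | hc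
  · have e : eta y = y := min_eq_left hc
    rw [e]
    have i1 := mul_le_mul_of_nonneg_left h0 (show 0 ≤ 1 - 2 * y by linarith)
    have i2 := mul_le_mul_of_nonneg_left h1 (show 0 ≤ 2 * y by linarith [hy.1])
    linarith
  · have e : eta y = 1 / 2 := min_eq_right hc
    rw [e]
    have i1 := mul_le_mul_of_nonneg_left h1 (show 0 ≤ 2 * (1 - y) by linarith [hy.2])
    have i2 := mul_le_mul_of_nonneg_left h2 (show 0 ≤ 2 * y - 1 by linarith)
    linarith

end Pool.Agent.RZ.RCN.K
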