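import Pool.Agent.RZ.RCG.Wk
import Pool.Agent.RZ.RCM.BMl
import Pool.Agent.RZ.RCM.EpJ
import Pool.Agent.RZ.RCM.NuB
import Pool.Agent.RZ.RCN.Free

/-! The density bound of the certified process from pointwise rates: the rates may come from the
norm system, from entry bounds of closures, or be trivial; and the cap of the density factor
(MP_73ccd0_lc, route M). -/

set_option autoImplicit false
set_option linter.unusedSectionVars false

namespace Pool.Agent.RZ.RCN.K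

open Set Finset MeasureTheory Pool.Agent.RZ.RCRSHalf Pool.Agent.RZ.RCG Pool.Agent.RZ.RCG.Ct
open Pool.Agent.RZ.RCN Pool.Agent.RZ.RCM

variable {V : Type*} [Fintype V] [DecidableEq V]
variable {h : ℝ → V → V → ℝ} {H : V → V → ℝ → ℝ} {x : V → V → ℝ}

/-- the rates of the density errors at the time `r`: `q1` for the vertex `a`, `q2` for the pair
`b`, `c` -/
structure RtD (h : ℝ → V → V → ℝ) (x : V → V → ℝ) (a b c : V) (r q1 q2 : ℝ) : Prop where
  m1 : ∃ m : V → ℝ, (∀ d ∈ ({a, b, c} : Finset V)ᶜ, 0 ≤ m d) ∧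
    (∀ d ∈ ({a, b, c} : Finset V)ᶜ, ∃ K1 K2,
      RCM.CloD h r r {a, b} {a, b} c d K1 ∧ RCM.CloD h r r {a} {a} b d K2 ∧
        (1 - m d) * (K1 * K2) ≤ 1) ∧
    ∑ d ∈ ({a, b, c} : Finset V)ᶜ, x a d * m d ≤ q1
  m2 : ∃ m : V → ℝ, (∀ d ∈ ({a, b, c} : Finset V)ᶜ, 0 ≤ m d) ∧
    (∀ d ∈ ({a, b, c} : Finset V)ᶜ, ∃ K3,
      RCM.CloD h r r {b, c} {b, c} a d K3 ∧ (1 - m d) * K3 ≤ 1) ∧
    ∑ d ∈ ({a, b, c} : Finset V)ᶜ, (x b d + x c d) * m d ≤ q2
  m3 : ∀ σ ∈ Icc 0 r, ∃ m : V → ℝ, (∀ d ∈ ({a, b, c} : Finset V)ᶜ, 0 ≤ m d) ∧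
    (∀ d ∈ ({a, b, c} : Finset V)ᶜ, ∃ K4 K5,
      RCM.CloD h r σ {a} {a} d b K4 ∧ RCM.CloD h r σ {a} {a, b} d c K5 ∧
        (1 - m d) * (K4 * K5) ≤ 1) ∧
    ∑ d ∈ ({a, b, c} : Finset V)ᶜ, x a d * m d ≤ q1

theorem RtD.mono {a b c : V} {r q1 q2 q1' q2' : ℝ} (hR : RtD h x a b c r q1 q2) (h1 : q1 ≤ q1')
    (h2 : q2 ≤ q2') : RtD h x a b c r q1' q2' where
  m1 := by
    obtain ⟨m, p, q, s⟩ := hR.m1
    exact ⟨m, p, q, s.trans h1⟩
  m2 := by
    obtain ⟨m, p, q, s⟩ := hR.m2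
    exact ⟨m, p, q, s.trans h2⟩
  m3 := fun σ hσ => by
    obtain ⟨m, p, q, s⟩ := hR.m3 σ hσ
    exact ⟨m, p, q, s.trans h1⟩

variable {P : V → Prop} [DecidablePred P]

section sums

variable (hx : Wt x P 1) {a b c : V} (hab : a ≠ b) (hac : a ≠ c) (hbc : b ≠ c)
include hx hab hac hbc

theorem row_abc : ∑ e ∈ ({a, b, c} : Finset V)ᶜ, x a e ≤ 1 - (x a b + x a c) := by
  have h2 := (wt_of hx).row a
  rw [← Finset.sum_add_sum_compl ({a, b, c} : Finset V)] at h2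
  rw [Finset.sum_insert (by simp [hab, hac]), Finset.sum_pair hbc, hx.diag a] at h2
  linarith

theorem sum_cst {m : ℝ} (m0 : 0 ≤ m) :
    ∑ d ∈ ({a, b, c} : Finset V)ᶜ, x a d * m ≤ (1 - (x a b + x a c)) * m := by
  rw [← Finset.sum_mul]
  exact mul_le_mul_of_nonneg_right (row_abc hx hab hac hbc) m0

theorem sum_cst2 {m : ℝ} (m0 : 0 ≤ m) :
    ∑ d ∈ ({a, b, c} : Finset V)ᶜ, (x b d + x c d) * m ≤ 2 * m := by
  rw [← Finset.sum_mul]
  refine mul_le_mul_of_nonneg_right ?_ m0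
  refine (Finset.sum_le_sum_of_subset_of_nonneg (Finset.subset_univ _) fun e _ _ =>
    add_nonneg (hx.nonneg b e) (hx.nonneg c e)).trans ?_
  rw [Finset.sum_add_distrib]
  linarith [(wt_of hx).row b, (wt_of hx).row c]

/-- the trivial rates -/
theorem RtD.triv (hh : Haz h H) {r : ℝ} (hr : r ∈ Icc (0 : ℝ) 1) :
    RtD h x a b c r (1 - (x a b + x a c)) 2 := by
  have rm : r ∈ Icc 0 r := ⟨hr.1, le_rfl⟩
  have bA : b ∉ ({a} : Finset V) := by simp [hab.symm]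
  have cA : c ∉ ({a, b} : Finset V) := by simp [hac.symm, hbc.symm]
  have aA : a ∉ ({b, c} : Finset V) := by simp [hab, hac]
  have nb : ∀ {d : V}, d ∈ ({a, b, c} : Finset V)ᶜ → d ≠ a := fun hd => by
    simp only [Finset.mem_compl, Finset.mem_insert, Finset.mem_singleton, not_or] at hd
    exact hd.1
  have s1 := sum_cst hx hab hac hbc zero_le_one
  have s2 := sum_cst2 hx hab hac hbc zero_le_one
  rw [mul_one] at s1 s2
  refine ⟨⟨fun _ => 1, fun _ _ => zero_le_one, fun d hd => ?_, s1⟩,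
    ⟨fun _ => 1, fun _ _ => zero_le_one, fun d hd => ?_, s2⟩,
    fun σ hσ => ⟨fun _ => 1, fun _ _ => zero_le_one, fun d hd => ?_, s1⟩⟩
  · obtain ⟨K1, h1⟩ := RCM.ex_cloD hh ({a, b} : Finset V) d cA hr rm
    obtain ⟨K2, h2⟩ := RCM.ex_cloD hh ({a} : Finset V) d bA hr rm
    exact ⟨K1, K2, h1, h2, by norm_num⟩
  · obtain ⟨K1, h1⟩ := RCM.ex_cloD hh ({b, c} : Finset V) d aA hr rm
    exact ⟨K1, h1, by norm_num⟩
  · have dA : d ∉ ({a} : Finset V) := by simp [nb hd]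
    obtain ⟨K1, h1⟩ := RCM.ex_cloD hh ({a} : Finset V) b dA hr hσ
    obtain ⟨K2, h2⟩ := RCM.ex_cloD hh ({a, b} : Finset V) c dA hr hσ
    exact ⟨K1, K2, h1, h2, by norm_num⟩

end sums

variable {B E1 : ℝ → ℝ → ℝ} {C mb : ℝ → ℝ} {t : ℝ} {sl : ℝ → ℝ → ℝ}

variable {φ : V → V → ℝ → ℝ} {ab : ℝ → ℝ → ℝ}

/-- backward functions with terminal value one are at most one -/
theorem ev_le_one (hh : Haz h H) {k : ℝ → V → ℝ} (k0 : ∀ r v, 0 ≤ k r v)
    {R : Finset V → ℝ → ℝ} (hR : IsEv h k (fun _ => 0) (fun _ => 0) t R) (h1 : ∀ F, R F t = 1) :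
    ∀ n : ℕ, ∀ F : Finset V, F.card = n → ∀ r ∈ Icc 0 t, R F r ≤ 1 := by
  intro n
  induction n using Nat.strong_induction_on with
  | _ n ih =>
  intro F hF r hr
  have := nonneg_of_backward (a := 0) (s := t) (U := fun r => 1 - R F r)
    (U' := fun r => gen (h r) (fun G => R G r) F - (∑ a ∈ F, k r a) * R F r)
    (fun r hr => ((hR.deriv F r hr).const_sub 1).congr_deriv (by ring))
    (by simp only [h1, sub_self, le_refl])
    (fun r hr hlt => by
      have hgt : 1 ≤ R F r := by linarith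
      have g : gen (h r) (fun G => R G r) F ≤ 0 := by
        refine gen_nonpos_of (hh.nonneg r) (β := 1) (fun a ha b _ => ?_) hgt
        refine ih _ ?_ _ rfl r hr
        rw [← hF]
        exact (Finset.card_le_card (Finset.erase_subset _ _)).trans_lt
          (Finset.card_erase_lt_of_mem ha)
      have s0 : 0 ≤ (∑ a ∈ F, k r a) * R F r :=
        mul_nonneg (Finset.sum_nonneg fun a _ => k0 r a) (hR.nonneg F r hr)
      linarith) r hr
  linarith

/-- **the cap of the density factor** -/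
theorem Kn.dens_cap (hK : Kn x P φ ab h H t) (a b c : V) {s : ℝ} (hs : s ∈ Icc 0 t) {K : ℝ}
    (hK1 : 1 + t ≤ K) : RCM.Dens h t s a b c K := by
  intro R hR hR1
  have hh := hK.hh
  have ht := hK.ht
  have hs1 : s ∈ Icc (0 : ℝ) 1 := ⟨hs.1, hs.2.trans ht.2⟩
  have hlaw : IsLaw h Finset.univ 1 (lw h ∅) := by
    have := hh.lw (∅ : Finset V)
    rwa [Finset.compl_empty] at this
  have hT : 0 < 1 + t := by linarith [ht.1]
  have e1 : ex (lw h ∅ s) {a, b, c} (fun F => R F s) ≤ pr (lw h ∅ s) {b, c} := by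
    unfold ex pr
    refine Finset.sum_le_sum fun F _ => ?_
    have n0 := hlaw.nonneg F s hs1
    by_cases h2 : ({a, b, c} : Finset V) ⊆ F
    · have h3 : ({b, c} : Finset V) ⊆ F := fun e he => h2 (Finset.mem_insert_of_mem he)
      rw [if_pos h2, if_pos h3]
      exact mul_le_mul_of_nonneg_left
        (ev_le_one hh (fun r v => hh.nonneg r a v) hR hR1 _ _ rfl s hs) n0
    · rw [if_neg h2, mul_zero]
      exact mul_nonneg n0 (by split_ifs <;> norm_num)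
  have p2 : 0 ≤ pr (lw h ∅ s) {b, c} := (pr_pos' hh hs1 _).le
  have p1 : 1 ≤ pr (lw h ∅ t) {a} * K := by
    have h2 : (1 + t)⁻¹ ≤ pr (lw h ∅ t) {a} := hK.lo t ⟨ht.1, le_rfl⟩ a
    have h3 := mul_le_mul h2 hK1 hT.le ((inv_pos.2 hT).le.trans h2)
    rwa [inv_mul_cancel₀ hT.ne'] at h3
  have h4 := mul_le_mul_of_nonneg_left p1 p2
  rw [mul_one] at h4
  refine e1.trans (h4.trans (le_of_eq ?_))
  ring

theorem dens_min {a b c : V} {s K K' : ℝ} (h1 : RCM.Dens h t s a b c K)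
    (h2 : RCM.Dens h t s a b c K') : RCM.Dens h t s a b c (Min.min K K') := by
  rcases le_total K K' with hq | hq
  · rw [min_eq_left hq]; exact h1
  · rw [min_eq_right hq]; exact h2

end Pool.Agent.RZ.RCN.K
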