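import Pool.Agent.RZ.RCG.Ctx

/-! The explicit density bound in the certified process (MP_73ccd0_lc, route M). -/

namespace Pool.Agent.RZ.RCN

open Set Finset Pool.Agent.RZ.RCRSHalf Pool.Agent.RZ.RCG

set_option linter.unusedSectionVars false

variable {V : Type*} [Fintype V] [DecidableEq V]
variable {x : V → V → ℝ} {P : V → Prop} [DecidablePred P]
variable {h : ℝ → V → V → ℝ} {H : V → V → ℝ → ℝ}
variable {φ : V → V → ℝ → ℝ} {ab : ℝ → ℝ → ℝ} {t : ℝ}

theorem pr_insert_le (hh : Haz h H) {r : ℝ} (hr : r ∈ Icc (0 : ℝ) 1) (d : V) (W : Finset V) :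
    pr (lw h ∅ r) (insert d W) ≤ pr (lw h ∅ r) W := by
  have hlaw : IsLaw h Finset.univ 1 (lw h ∅) := by
    have := hh.lw (∅ : Finset V)
    rwa [Finset.compl_empty] at this
  unfold pr
  refine Finset.sum_le_sum fun F _ => mul_le_mul_of_nonneg_left ?_ (hlaw.nonneg F r hr)
  by_cases h1 : insert d W ⊆ F
  · rw [if_pos h1, if_pos ((Finset.subset_insert d W).trans h1)]
  · rw [if_neg h1]; split_ifs <;> norm_num

end Pool.Agent.RZ.RCN
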