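import Pool.Agent.RZ.RCE.DnM
import Pool.Agent.RZ.RCE.KnDens2

/-! The density bound of the certified process from pointwise rates, with a rate after the time
`s` which depends on `s` (MP_73ccd0_lc, route P). -/

set_option autoImplicit false
set_option linter.unusedSectionVars false

namespace Pool.Agent.RZ.RCN.K

open Set Finset MeasureTheory Pool.Agent.RZ.RCRSHalf Pool.Agent.RZ.RCG Pool.Agent.RZ.RCG.Ct
open Pool.Agent.RZ.RCN Pool.Agent.RZ.RCE Pool.Agent.RZ.RCM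

variable {V : Type*} [Fintype V] [DecidableEq V]
variable {h : ℝ → V → V → ℝ} {H : V → V → ℝ → ℝ} {x : V → V → ℝ}

/-- the rates of the density errors at the time `r`: `q1` for the vertex `a`, `q2` for the pair
`b`, `c` -/
structure RtT (h : ℝ → V → V → ℝ) (x : V → V → ℝ) (a b c : V) (r q1 q2 : ℝ) : Prop where
  m1 : ∃ m : V → ℝ, (∀ d ∈ ({a, b, c} : Finset V)ᶜ, 0 ≤ m d) ∧
    (∀ d ∈ ({a, b, c} : Finset V)ᶜ, ∃ K1 K2,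
      RCM.CloD h r r {a, b} {a, b} c d K1 ∧ RCM.CloD h r r {a} {a} b d K2 ∧
        (1 - m d) * (K1 * K2) ≤ 1) ∧
    ∑ d ∈ ({a, b, c} : Finset V)ᶜ, x a d * m d ≤ q1
  m2 : ∃ m : V → ℝ, (∀ d ∈ ({a, b, c} : Finset V)ᶜ, 0 ≤ m d) ∧
    (∀ d ∈ ({a, b, c} : Finset V)ᶜ, ∃ K3,
      RCM.CloD h r r {b, c} {b, c} a d K3 ∧ (1 - m d) * K3 ≤ 1) ∧
    ∑ d ∈ ({a, b, c} : Finset V)ᶜ, (x b d + x c d) * m d ≤ q2

/-- the rate `q3` of the vertex `a` at the time `r` when `b`, `c` are free at the time `s` -/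
def RtS (h : ℝ → V → V → ℝ) (x : V → V → ℝ) (a b c : V) (r s q3 : ℝ) : Prop :=
  ∃ m : V → ℝ, (∀ d ∈ ({a, b, c} : Finset V)ᶜ, 0 ≤ m d) ∧
    (∀ d ∈ ({a, b, c} : Finset V)ᶜ, ∃ K4 K5,
      RCM.CloD h r s {a} {a} d b K4 ∧ RCM.CloD h r s {a} {a, b} d c K5 ∧
        (1 - m d) * (K4 * K5) ≤ 1) ∧
    ∑ d ∈ ({a, b, c} : Finset V)ᶜ, x a d * m d ≤ q3

theorem RtT.mono {a b c : V} {r q1 q2 q1' q2' : ℝ} (hR : RtT h x a b c r q1 q2) (h1 : q1 ≤ q1')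
    (h2 : q2 ≤ q2') : RtT h x a b c r q1' q2' where
  m1 := by
    obtain ⟨m, p, q, s⟩ := hR.m1
    exact ⟨m, p, q, s.trans h1⟩
  m2 := by
    obtain ⟨m, p, q, s⟩ := hR.m2
    exact ⟨m, p, q, s.trans h2⟩

theorem RtS.mono {a b c : V} {r s q q' : ℝ} (hR : RtS h x a b c r s q) (h1 : q ≤ q') :
    RtS h x a b c r s q' := by
  obtain ⟨m, p, q, s⟩ := hR
  exact ⟨m, p, q, s.trans h1⟩

theorem RtD.toT {a b c : V} {r q1 q2 : ℝ} (hR : RtD h x a b c r q1 q2) :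
    RtT h x a b c r q1 q2 := ⟨hR.m1, hR.m2⟩

theorem RtD.toS {a b c : V} {r q1 q2 : ℝ} (hR : RtD h x a b c r q1 q2) {s : ℝ}
    (hs : s ∈ Icc 0 r) : RtS h x a b c r s q1 := hR.m3 s hs

variable {P : V → Prop} [DecidablePred P] {t : ℝ}
variable {φ : V → V → ℝ → ℝ} {ab : ℝ → ℝ → ℝ}

/-- **The density bound from the pointwise rates.** -/
theorem Kn.dens_rt2 (hK : Kn x P φ ab h H t) (hx : Wt x P 1) {a b c : V} (hab : a ≠ b)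
    (hac : a ≠ c) (hbc : b ≠ c) {s : ℝ} (hs : s ∈ Icc 0 t)
    {Em Em' ε1 ε1' ε2 ε2' ε3 ε3' bq mb q1 q2 q3 : ℝ → ℝ} {Bm : ℝ}
    (hmb : ∀ r ∈ Icc 0 t, ∀ u v, h r u v ≤ x u v * mb r)
    (dP : ∀ r ∈ Icc 0 t, HasDerivAt Em (Em' r) r)
    (hP : ∀ r ∈ Icc 0 t, (x a b * φ a b r + x a c * φ a c r) / bb h ∅ a r ≤ Em' r)
    (hBm : Real.exp (Em t - Em 0) ≤ Bm)
    (hbq : ∀ r ∈ Icc 0 t, ∀ d, dE h a d r ≤ x a d * bq r) (bq0 : ∀ r ∈ Icc 0 t, 0 ≤ bq r)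
    (mb0 : ∀ r ∈ Icc 0 t, 0 ≤ mb r)
    (hR : ∀ r ∈ Icc 0 s, RtT h x a b c r (q1 r) (q2 r))
    (hS : ∀ r ∈ Icc s t, RtS h x a b c r s (q3 r))
    (d1 : ∀ r ∈ Icc 0 s, HasDerivAt ε1 (ε1' r) r) (d2 : ∀ r ∈ Icc 0 s, HasDerivAt ε2 (ε2' r) r)
    (d3 : ∀ r ∈ Icc s t, HasDerivAt ε3 (ε3' r) r)
    (o1 : ∀ r ∈ Icc 0 s, bq r * q1 r ≤ ε1' r) (o2 : ∀ r ∈ Icc 0 s, mb r * q2 r ≤ ε2' r)
    (o3 : ∀ r ∈ Icc s t, bq r * q3 r ≤ ε3' r) :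
    RCM.Dens h t s a b c
      (Bm * Real.exp ((ε1 s - ε1 0) + (ε3 t - ε3 s) + (ε2 s - ε2 0))) := by
  have hin1 : ∀ r ∈ Icc 0 s, r ∈ Icc 0 t := fun r hr => ⟨hr.1, hr.2.trans hs.2⟩
  have hin2 : ∀ r ∈ Icc s t, r ∈ Icc 0 t := fun r hr => ⟨hs.1.trans hr.1, hr.2⟩
  have ex1 : ∀ r, ∃ m : V → ℝ, r ∈ Icc 0 s → (∀ d ∈ ({a, b, c} : Finset V)ᶜ, ∃ K1 K2,
      RCM.CloD h r r {a, b} {a, b} c d K1 ∧ RCM.CloD h r r {a} {a} b d K2 ∧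
        (1 - m d) * (K1 * K2) ≤ 1) ∧
      ∑ d ∈ ({a, b, c} : Finset V)ᶜ, dE h a d r * m d ≤ ε1' r := by
    intro r
    by_cases hr : r ∈ Icc 0 s
    · obtain ⟨m, m0, p, q⟩ := (hR r hr).m1
      refine ⟨m, fun _ => ⟨p, ?_⟩⟩
      refine le_trans ?_ (o1 r hr)
      refine le_trans ?_ (mul_le_mul_of_nonneg_left q (bq0 r (hin1 r hr)))
      rw [Finset.mul_sum]
      refine Finset.sum_le_sum fun d hd => ?_
      have := mul_le_mul_of_nonneg_right (hbq r (hin1 r hr) d) (m0 d hd)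
      linarith
    · exact ⟨fun _ => 1, fun h => absurd h hr⟩
  choose m1 hm1 using ex1
  have ex2 : ∀ r, ∃ m : V → ℝ, r ∈ Icc 0 s → (∀ d ∈ ({a, b, c} : Finset V)ᶜ, 0 ≤ m d) ∧
      (∀ d ∈ ({a, b, c} : Finset V)ᶜ, ∃ K3,
      RCM.CloD h r r {b, c} {b, c} a d K3 ∧ (1 - m d) * K3 ≤ 1) ∧
      ∑ d ∈ ({a, b, c} : Finset V)ᶜ, (h r b d + h r c d) * m d ≤ ε2' r := by
    intro r
    by_cases hr : r ∈ Icc 0 s
    · obtain ⟨m, m0, p, q⟩ := (hR r hr).m2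
      refine ⟨m, fun _ => ⟨m0, p, ?_⟩⟩
      refine le_trans ?_ (o2 r hr)
      refine le_trans ?_ (mul_le_mul_of_nonneg_left q (mb0 r (hin1 r hr)))
      rw [Finset.mul_sum]
      refine Finset.sum_le_sum fun d hd => ?_
      have := mul_le_mul_of_nonneg_right
        (add_le_add (hmb r (hin1 r hr) b d) (hmb r (hin1 r hr) c d)) (m0 d hd)
      linarith
    · exact ⟨fun _ => 1, fun h => absurd h hr⟩
  choose m2 hm2 using ex2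
  have ex3 : ∀ r, ∃ m : V → ℝ, r ∈ Icc s t →
      (∀ d ∈ ({a, b, c} : Finset V)ᶜ, ∃ K4 K5,
      RCM.CloD h r s {a} {a} d b K4 ∧ RCM.CloD h r s {a} {a, b} d c K5 ∧
        (1 - m d) * (K4 * K5) ≤ 1) ∧
      ∑ d ∈ ({a, b, c} : Finset V)ᶜ, dE h a d r * m d ≤ ε3' r := by
    intro r
    by_cases hr : r ∈ Icc s t
    · obtain ⟨m, m0, p, q⟩ := hS r hr
      refine ⟨m, fun _ => ⟨p, ?_⟩⟩
      refine le_trans ?_ (o3 r hr)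
      refine le_trans ?_ (mul_le_mul_of_nonneg_left q (bq0 r (hin2 r hr)))
      rw [Finset.mul_sum]
      refine Finset.sum_le_sum fun d hd => ?_
      have := mul_le_mul_of_nonneg_right (hbq r (hin2 r hr) d) (m0 d hd)
      linarith
    · exact ⟨fun _ => 1, fun h => absurd h hr⟩
  choose m3 hm3 using ex3
  exact Kn.dens2 hK hab hac hbc (m1 := fun d r => m1 r d) (m2 := fun d r => m2 r d)
    (ν := fun d r => m3 r d) hs dP hP hBm d1 d2 d3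
    (fun r hr d hd _ => (hm1 r hr).1 d hd) (fun r hr => (hm1 r hr).2)
    (fun r hr d hd => (hm2 r hr).1 d hd) (fun r hr d hd _ => (hm2 r hr).2.1 d hd)
    (fun r hr => (hm2 r hr).2.2)
    (fun r hr d hd _ => (hm3 r hr).1 d hd) (fun r hr => (hm3 r hr).2)

end Pool.Agent.RZ.RCN.K
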