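import Mathlib

/-! The main part of the density bound: `∫ (f_ab + f_ac) / a_a` (MP_73ccd0_lc, route M). -/

namespace Pool.Agent.RZ.RCE

open Set

/-- the slack in Bernoulli's inequality: `log (1 + s t) - s log (1 + t) ≥ s (1 - s) c(t)` with
`c(t) = log (1 + t) - t / (1 + t)` -/
theorem slack {s t : ℝ} (s0 : 0 ≤ s) (s1 : s ≤ 1) (t0 : 0 ≤ t) :
    s * (1 - s) * (Real.log (1 + t) - t / (1 + t)) ≤
      Real.log (1 + s * t) - s * Real.log (1 + t) := by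
  -- as a function of `t`: both sides vanish at `0`, compare derivatives
  set D : ℝ → ℝ := fun t => Real.log (1 + s * t) - s * Real.log (1 + t)
    - s * (1 - s) * (Real.log (1 + t) - t / (1 + t)) with hD
  have hd : ∀ r ∈ Ici (0:ℝ), HasDerivAt D
      (s / (1 + s * r) - s * (1 / (1 + r)) - s * (1 - s) * (1 / (1 + r) - 1 / (1 + r) ^ 2)) r := by
    intro r hr
    have hr0 : (0:ℝ) ≤ r := hr
    have p1 : 0 < 1 + s * r := by positivity
    have p2 : 0 < 1 + r := by linarith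
    have e1 : HasDerivAt (fun t : ℝ => 1 + s * t) s r := by
      simpa using ((hasDerivAt_id r).const_mul s).const_add 1
    have e2 : HasDerivAt (fun t : ℝ => 1 + t) 1 r := by
      simpa using (hasDerivAt_id r).const_add 1
    have l1 := e1.log p1.ne'
    have l2 := e2.log p2.ne'
    have l3 : HasDerivAt (fun t : ℝ => t / (1 + t)) (1 / (1 + r) ^ 2) r := by
      have := (hasDerivAt_id r).div e2 p2.ne'
      refine this.congr_deriv ?_
      simp only [id]; ring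
    exact ((l1.sub (l2.const_mul s)).sub ((l2.sub l3).const_mul (s * (1 - s))))
  have hmono : MonotoneOn D (Ici 0) := by
    refine monotoneOn_of_deriv_nonneg (convex_Ici 0)
      (fun r hr => (hd r hr).continuousAt.continuousWithinAt)
      (fun r hr => (hd r (interior_subset hr)).differentiableAt.differentiableWithinAt) ?_
    intro r hr
    have hr0 : (0:ℝ) ≤ r := interior_subset hr
    rw [(hd r hr0).deriv]
    have p1 : 0 < 1 + s * r := by positivity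
    have p2 : 0 < 1 + r := by linarith
    have : s / (1 + s * r) - s * (1 / (1 + r)) - s * (1 - s) * (1 / (1 + r) - 1 / (1 + r) ^ 2)
        = s * (1 - s) * r * ((1 - s) * r) / ((1 + s * r) * (1 + r) ^ 2) := by
      field_simp
      ring
    rw [this]
    have : 0 ≤ 1 - s := by linarith
    positivity
  have h0 : D 0 = 0 := by simp [hD]
  have := hmono (Set.mem_Ici.2 (le_refl (0:ℝ))) (Set.mem_Ici.2 t0) t0
  rw [h0] at this
  simp only [hD] at this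
  linarith

/-- the two fluxes -/
structure Fl (x y t : ℝ) (a ψ1 ψ1' ψ2 ψ2' : ℝ → ℝ) : Prop where
  t0 : 0 ≤ t
  x0 : 0 ≤ x
  y0 : 0 ≤ y
  lo : ∀ s ∈ Icc 0 t, (1 + s)⁻¹ ≤ a s
  d1 : ∀ s ∈ Icc 0 t, HasDerivAt ψ1 (ψ1' s) s
  d2 : ∀ s ∈ Icc 0 t, HasDerivAt ψ2 (ψ2' s) s
  z1 : ψ1 0 = 0
  z2 : ψ2 0 = 0
  f1 : ∀ s ∈ Icc 0 t, 0 ≤ x * (((1 + s) ^ 2)⁻¹ - ψ1' s)
  f2 : ∀ s ∈ Icc 0 t, 0 ≤ y * (((1 + s) ^ 2)⁻¹ - ψ2' s)

variable {x y t : ℝ} {a ψ1 ψ1' ψ2 ψ2' : ℝ → ℝ}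

theorem hd_q {s : ℝ} (hs : 0 ≤ s) : HasDerivAt (fun s : ℝ => (1 + s)⁻¹) (-((1 + s) ^ 2)⁻¹) s := by
  have hr0 : (1 + s) ≠ 0 := by linarith
  have := (((hasDerivAt_id s).const_add 1).inv hr0)
  refine this.congr_deriv ?_
  simp only [id]; rw [neg_div, one_div]

theorem hd_log {s : ℝ} (hs : 0 ≤ s) : HasDerivAt (fun s : ℝ => Real.log (1 + s)) ((1 + s)⁻¹) s := by
  have hr0 : (1 + s) ≠ 0 := by linarith
  have := (((hasDerivAt_id s).const_add 1).log hr0)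
  refine this.congr_deriv ?_
  simp

/-- first method: `1 / a ≤ 1 + s` -/
theorem Fl.one (h : Fl x y t a ψ1 ψ1' ψ2 ψ2') {al1 al2 A1 A2 : ℝ → ℝ}
    (u1 : ∀ s ∈ Icc 0 t, x * ψ1 s ≤ x * al1 s) (u2 : ∀ s ∈ Icc 0 t, y * ψ2 s ≤ y * al2 s)
    (dA1 : ∀ s ∈ Icc 0 t, HasDerivAt A1 (al1 s) s) (dA2 : ∀ s ∈ Icc 0 t, HasDerivAt A2 (al2 s) s) :
    ∃ E E' : ℝ → ℝ, (∀ s ∈ Icc 0 t, HasDerivAt E (E' s) s) ∧
      (∀ s ∈ Icc 0 t, (x * (((1 + s) ^ 2)⁻¹ - ψ1' s) + y * (((1 + s) ^ 2)⁻¹ - ψ2' s)) / a s ≤ E' s) ∧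
      E t - E 0 = (x + y) * Real.log (1 + t) - (1 + t) * (x * ψ1 t + y * ψ2 t)
        + x * (A1 t - A1 0) + y * (A2 t - A2 0) := by
  refine ⟨fun s => (1 + s) * ((x + y) * (1 - (1 + s)⁻¹) - x * ψ1 s - y * ψ2 s)
      - (x + y) * (s - Real.log (1 + s)) + x * A1 s + y * A2 s,
    fun s => (1 + s) * (x * (((1 + s) ^ 2)⁻¹ - ψ1' s) + y * (((1 + s) ^ 2)⁻¹ - ψ2' s))
      + (x * al1 s - x * ψ1 s) + (y * al2 s - y * ψ2 s), fun s hs => ?_, fun s hs => ?_, ?_⟩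
  · have s0 : 0 ≤ s := hs.1
    have p : (1 + s) ≠ 0 := by linarith
    have e0 : HasDerivAt (fun s : ℝ => 1 + s) 1 s := by simpa using (hasDerivAt_id s).const_add 1
    have e1 : HasDerivAt (fun s => (x + y) * (1 - (1 + s)⁻¹) - x * ψ1 s - y * ψ2 s)
        ((x + y) * (((1 + s) ^ 2)⁻¹) - x * ψ1' s - y * ψ2' s) s := by
      refine (((((hd_q s0).const_sub 1).const_mul (x + y)).sub ((h.d1 s hs).const_mul x)).sub
        ((h.d2 s hs).const_mul y)).congr_deriv ?_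
      ring
    have e2 : HasDerivAt (fun s => (x + y) * (s - Real.log (1 + s)))
        ((x + y) * (1 - (1 + s)⁻¹)) s := ((hasDerivAt_id s).sub (hd_log s0)).const_mul _
    refine ((((e0.mul e1).sub e2).add ((dA1 s hs).const_mul x)).add
      ((dA2 s hs).const_mul y)).congr_deriv ?_
    ring
  · have s0 : 0 ≤ s := hs.1
    have p : 0 < 1 + s := by linarith
    have hf := add_nonneg (h.f1 s hs) (h.f2 s hs)
    have ha : 0 < a s := (inv_pos.2 p).trans_le (h.lo s hs)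
    have h1 : (x * (((1 + s) ^ 2)⁻¹ - ψ1' s) + y * (((1 + s) ^ 2)⁻¹ - ψ2' s)) / a s
        ≤ (1 + s) * (x * (((1 + s) ^ 2)⁻¹ - ψ1' s) + y * (((1 + s) ^ 2)⁻¹ - ψ2' s)) := by
      rw [div_le_iff₀ ha]
      have h2 : 1 ≤ (1 + s) * a s := by
        have := mul_le_mul_of_nonneg_left (h.lo s hs) p.le
        rwa [mul_inv_cancel₀ p.ne'] at this
      nlinarith
    have := u1 s hs
    have := u2 s hs
    linarith
  · have p : (1 + t) ≠ 0 := by linarith [h.t0]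
    simp only [add_zero, inv_one, sub_self, mul_zero, Real.log_one, h.z1, h.z2]
    field_simp
    ring

/-- second method: the fluxes are the total flux without the remaining one -/
theorem Fl.two (h : Fl x y t a ψ1 ψ1' ψ2 ψ2') {a' g g' B B' p0 : ℝ → ℝ}
    (hσ : x + y ≤ 1) (a0 : a 0 = 1) (da : ∀ s ∈ Icc 0 t, HasDerivAt a (a' s) s)
    (fr : ∀ s ∈ Icc 0 t, 0 ≤ -a' s
      - (x * (((1 + s) ^ 2)⁻¹ - ψ1' s) + y * (((1 + s) ^ 2)⁻¹ - ψ2' s)))
    (dg : ∀ s ∈ Icc 0 t, HasDerivAt g (g' s) s) (g0 : ∀ s ∈ Icc 0 t, 0 ≤ g' s)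
    (ga : ∀ s ∈ Icc 0 t, g s * a s ≤ 1)
    (dB : ∀ s ∈ Icc 0 t, HasDerivAt B (B' s) s)
    (hB : ∀ s ∈ Icc 0 t, g' s * (1 - (1 + s)⁻¹ + p0 s) ≤ B' s)
    (hr : ∀ s ∈ Icc 0 t, 1 - a s - ((x + y) * (1 - (1 + s)⁻¹) - x * ψ1 s - y * ψ2 s)
      ≤ (1 - (x + y)) * (1 - (1 + s)⁻¹ + p0 s)) :
    ∃ E E' : ℝ → ℝ, (∀ s ∈ Icc 0 t, HasDerivAt E (E' s) s) ∧
      (∀ s ∈ Icc 0 t, (x * (((1 + s) ^ 2)⁻¹ - ψ1' s) + y * (((1 + s) ^ 2)⁻¹ - ψ2' s)) / a s ≤ E' s) ∧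
      E t - E 0 ≤ Real.log (1 + t) - g t * ((1 - (x + y)) * (1 - (1 + t)⁻¹))
        - g t * (x * ψ1 t + y * ψ2 t) + (1 - (x + y)) * (B t - B 0) := by
  have apos : ∀ s ∈ Icc 0 t, 0 < a s := fun s hs =>
    (inv_pos.2 (by linarith [hs.1] : (0:ℝ) < 1 + s)).trans_le (h.lo s hs)
  refine ⟨fun s => -Real.log (a s)
      - g s * (1 - a s - ((x + y) * (1 - (1 + s)⁻¹) - x * ψ1 s - y * ψ2 s))
      + (1 - (x + y)) * B s,
    fun s => -(a' s / a s)
      - (g' s * (1 - a s - ((x + y) * (1 - (1 + s)⁻¹) - x * ψ1 s - y * ψ2 s))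
        + g s * (-a' s - (x * (((1 + s) ^ 2)⁻¹ - ψ1' s) + y * (((1 + s) ^ 2)⁻¹ - ψ2' s))))
      + (1 - (x + y)) * B' s, fun s hs => ?_, fun s hs => ?_, ?_⟩
  · have s0 : 0 ≤ s := hs.1
    have e1 : HasDerivAt (fun s => (x + y) * (1 - (1 + s)⁻¹) - x * ψ1 s - y * ψ2 s)
        (x * (((1 + s) ^ 2)⁻¹ - ψ1' s) + y * (((1 + s) ^ 2)⁻¹ - ψ2' s)) s := by
      refine (((((hd_q s0).const_sub 1).const_mul (x + y)).sub ((h.d1 s hs).const_mul x)).sub
        ((h.d2 s hs).const_mul y)).congr_deriv ?_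
      ring
    have e2 := ((da s hs).const_sub 1).sub e1
    have e3 := ((da s hs).log (apos s hs).ne').neg
    exact (e3.sub ((dg s hs).mul e2)).add ((dB s hs).const_mul _)
  · set f := x * (((1 + s) ^ 2)⁻¹ - ψ1' s) + y * (((1 + s) ^ 2)⁻¹ - ψ2' s) with hf
    set R := 1 - a s - ((x + y) * (1 - (1 + s)⁻¹) - x * ψ1 s - y * ψ2 s) with hR
    have ha := apos s hs
    have h1 : g' s * R ≤ (1 - (x + y)) * B' s := by
      calc g' s * R ≤ g' s * ((1 - (x + y)) * (1 - (1 + s)⁻¹ + p0 s)) :=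
            mul_le_mul_of_nonneg_left (hr s hs) (g0 s hs)
        _ = (1 - (x + y)) * (g' s * (1 - (1 + s)⁻¹ + p0 s)) := by ring
        _ ≤ _ := mul_le_mul_of_nonneg_left (hB s hs) (by linarith)
    have h2 : g s * (-a' s - f) ≤ (-a' s - f) / a s := by
      rw [le_div_iff₀ ha]
      have := ga s hs
      have := fr s hs
      calc g s * (-a' s - f) * a s = g s * a s * (-a' s - f) := by ring
        _ ≤ 1 * (-a' s - f) := mul_le_mul_of_nonneg_right (ga s hs) (fr s hs)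
        _ = _ := one_mul _
    have h3 : (-a' s - f) / a s = -(a' s / a s) - f / a s := by ring
    rw [h3] at h2
    linarith
  · simp only [add_zero, inv_one, sub_self, mul_zero, a0, Real.log_one, h.z1, h.z2]
    have htt : t ∈ Icc 0 t := ⟨h.t0, le_rfl⟩
    have ha := apos t htt
    have p : 0 < 1 + t := by linarith [h.t0]
    have hq : 0 < (1 + t)⁻¹ := inv_pos.2 p
    -- `g (a - q) ≤ log a - log q`
    have h1 : g t * (a t - (1 + t)⁻¹) ≤ Real.log (a t) + Real.log (1 + t) := by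
      have h2 : Real.log ((1 + t)⁻¹ / a t) ≤ (1 + t)⁻¹ / a t - 1 :=
        Real.log_le_sub_one_of_pos (div_pos hq ha)
      rw [Real.log_div hq.ne' ha.ne', Real.log_inv] at h2
      have h3 : (1 + t)⁻¹ / a t - 1 = -((a t - (1 + t)⁻¹) / a t) := by
        field_simp; ring
      rw [h3] at h2
      have h4 : g t * (a t - (1 + t)⁻¹) ≤ (a t - (1 + t)⁻¹) / a t := by
        rw [le_div_iff₀ ha]
        have h5 : 0 ≤ a t - (1 + t)⁻¹ := sub_nonneg.2 (h.lo t htt)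
        calc g t * (a t - (1 + t)⁻¹) * a t = g t * a t * (a t - (1 + t)⁻¹) := by ring
          _ ≤ 1 * (a t - (1 + t)⁻¹) := mul_le_mul_of_nonneg_right (ga t htt) h5
          _ = _ := one_mul _
      linarith
    linarith

end Pool.Agent.RZ.RCE
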