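import Pool.Agent.RZ.RCE.Lam

/-! The main factor of the density bound is at most `(1 + w t)(1 + δ t)` (MP_73ccd0_lc, route M). -/

namespace Pool.Agent.RZ.RCE

open Set

/-- scalar data -/
structure LD where
  Z : ℝ → ℝ
  Z' : ℝ → ℝ
  IZ : ℝ → ℝ
  p0 : ℝ → ℝ
  n : ℝ → ℝ
  NI : ℝ → ℝ
  cl : ℝ → ℝ
  cl' : ℝ → ℝ
  lu : ℝ → ℝ
  lu' : ℝ → ℝ
  D : ℝ → ℝ
  Bp : ℝ → ℝ
  Bp' : ℝ → ℝ
  th : ℝ
  dl : ℝ

/-- the scalar inequalities -/
structure LD.Ok (L : LD) : Prop where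
  dZ : ∀ t ∈ Icc (0 : ℝ) 1, HasDerivAt L.Z (L.Z' t) t
  dIZ : ∀ t ∈ Icc (0 : ℝ) 1, HasDerivAt L.IZ (L.Z t) t
  dNI : ∀ t ∈ Icc (0 : ℝ) 1, HasDerivAt L.NI (L.n t) t
  dcl : ∀ t ∈ Icc (0 : ℝ) 1, HasDerivAt L.cl (L.cl' t) t
  dlu : ∀ t ∈ Icc (0 : ℝ) 1, HasDerivAt L.lu (L.lu' t) t
  dBp : ∀ t ∈ Icc (0 : ℝ) 1, HasDerivAt L.Bp (L.Bp' t) t
  IZ0 : L.IZ 0 = 0
  NI0 : L.NI 0 = 0
  cl0 : L.cl 0 = 0
  lu0 : L.lu 0 = 0
  Bp0 : L.Bp 0 = 0
  hZ : ∀ t ∈ Icc (0 : ℝ) 1, 0 ≤ L.Z t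
  hp0 : ∀ t ∈ Icc (0 : ℝ) 1, 0 ≤ L.p0 t
  hth : 0 ≤ L.th
  hdl : 0 ≤ L.dl
  cli : ∀ t ∈ Icc (0 : ℝ) 1, L.cl' t * (1 + t) ^ 2 ≤ t
  lui : ∀ t ∈ Icc (0 : ℝ) 1, 1 ≤ L.lu' t * (1 + t)
  abd : ∀ t ∈ Icc (0 : ℝ) 1, L.th * L.Z' t * (1 + t) ^ 2 ≤ 1
  Di : ∀ t ∈ Icc (0 : ℝ) 1, 1 - L.th * L.Z' t * (1 + t) ^ 2
    ≤ L.D t * (1 + L.th * L.Z t * (1 + t)) ^ 2
  Bpi : ∀ t ∈ Icc (0 : ℝ) 1, L.D t * (t + (1 + t) * L.p0 t) ≤ L.Bp' t * (1 + t)
  /-- first method, two extreme cases -/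
  i1 : ∀ w ∈ Icc (0 : ℝ) (3 / 5), ∀ t ∈ Icc (0 : ℝ) 1,
    0 ≤ w * (1 - w) * L.cl t + (L.dl * t - L.dl ^ 2 * t ^ 2 / 2)
      + 7 / 16 * w ^ 2 * ((1 + t) * L.Z t - L.IZ t) + (w ^ 2 / 2 - w) * ((1 + t) * L.p0 t)
      - w * L.NI t
  i2 : ∀ w ∈ Icc (0 : ℝ) (3 / 5), ∀ t ∈ Icc (0 : ℝ) 1,
    0 ≤ w * (1 - w) * L.cl t + (L.dl * t - L.dl ^ 2 * t ^ 2 / 2)
      + w ^ 2 * ((1 + t) * L.Z t - L.IZ t) + (w ^ 2 / 2 - w) * ((1 + t) * L.p0 t)
      - w * L.NI t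
  /-- second method -/
  i3 : ∀ w ∈ Icc (3 / 5 : ℝ) 1, ∀ t ∈ Icc (0 : ℝ) 1,
    0 ≤ (1 + L.th * L.Z t * (1 + t)) * (w * (1 - w) * L.cl t
        + (L.dl * t - L.dl ^ 2 * t ^ 2 / 2) - (1 - w) * (L.lu t + L.Bp t))
      + (1 - w) * t + (1 + t) * (7 / 16 * w ^ 2 * L.Z t - (w - w ^ 2 / 2) * L.p0 t)

/-- `x min(x, 1/2) + y min(y, 1/2)` -/
theorem e2_low {x y : ℝ} (x0 : 0 ≤ x) (y0 : 0 ≤ y) (h : x + y ≤ 1) :
    7 / 16 * (x + y) ^ 2 ≤ x * min x (1 / 2) + y * min y (1 / 2) := by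
  rcases le_total x (1 / 2) with h1 | h1 <;> rcases le_total y (1 / 2) with h2 | h2
  · rw [min_eq_left h1, min_eq_left h2]
    nlinarith [sq_nonneg (x - y), sq_nonneg (x + y)]
  · rw [min_eq_left h1, min_eq_right h2]
    have : 0 ≤ (1 - x - y) * (y - 1 / 2) := mul_nonneg (by linarith) (by linarith)
    nlinarith [sq_nonneg (x - 1 / 4), sq_nonneg x, mul_nonneg x0 y0]
  · rw [min_eq_right h1, min_eq_left h2]
    have : 0 ≤ (1 - x - y) * (x - 1 / 2) := mul_nonneg (by linarith) (by linarith)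
    nlinarith [sq_nonneg (y - 1 / 4), sq_nonneg y, mul_nonneg x0 y0]
  · have hx : x = 1 / 2 := by linarith
    have hy : y = 1 / 2 := by linarith
    subst hx; subst hy; norm_num

theorem e2_up {x y : ℝ} (x0 : 0 ≤ x) (y0 : 0 ≤ y) :
    x * min x (1 / 2) + y * min y (1 / 2) ≤ (x + y) ^ 2 := by
  have h1 : x * min x (1 / 2) ≤ x * x := mul_le_mul_of_nonneg_left (min_le_left _ _) x0
  have h2 : y * min y (1 / 2) ≤ y * y := mul_le_mul_of_nonneg_left (min_le_left _ _) y0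
  nlinarith [mul_nonneg x0 y0]

/-- primitives: comparison -/
theorem cmp_prim {f f' g g' : ℝ → ℝ} (hf : ∀ t ∈ Icc (0 : ℝ) 1, HasDerivAt f (f' t) t)
    (hg : ∀ t ∈ Icc (0 : ℝ) 1, HasDerivAt g (g' t) t) (h0 : f 0 ≤ g 0)
    (h : ∀ t ∈ Icc (0 : ℝ) 1, f' t ≤ g' t) {t : ℝ} (ht : t ∈ Icc (0 : ℝ) 1) : f t ≤ g t := by
  have hd : ∀ t ∈ Icc (0 : ℝ) 1, HasDerivAt (fun t => g t - f t) (g' t - f' t) t :=
    fun t ht => (hg t ht).sub (hf t ht)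
  have hm : MonotoneOn (fun t => g t - f t) (Icc 0 1) := by
    refine monotoneOn_of_deriv_nonneg (convex_Icc 0 1)
      (fun r hr => (hd r hr).continuousAt.continuousWithinAt)
      (fun r hr => (hd r (interior_subset hr)).differentiableAt.differentiableWithinAt) ?_
    intro r hr
    rw [(hd r (interior_subset hr)).deriv]
    exact sub_nonneg.2 (h r (interior_subset hr))
  have := hm ⟨le_rfl, zero_le_one⟩ ht ht.1
  simp only at this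
  linarith

variable {L : LD}

theorem LD.Ok.cl_le (h : L.Ok) {t : ℝ} (ht : t ∈ Icc (0 : ℝ) 1) :
    L.cl t ≤ Real.log (1 + t) - t / (1 + t) := by
  refine cmp_prim (f := L.cl) (g := fun t => Real.log (1 + t) - t / (1 + t)) h.dcl
    (g' := fun t => (1 + t)⁻¹ - ((1 + t) ^ 2)⁻¹) (fun r hr => ?_) (by rw [h.cl0]; simp)
    (fun r hr => ?_) ht
  · have hr0 : (1 + r) ≠ 0 := by linarith [hr.1]
    have e2 : HasDerivAt (fun t : ℝ => 1 + t) 1 r := by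
      simpa using (hasDerivAt_id r).const_add 1
    have l3 : HasDerivAt (fun t : ℝ => t / (1 + t)) (((1 + r) ^ 2)⁻¹) r := by
      refine ((hasDerivAt_id r).div e2 hr0).congr_deriv ?_
      simp only [id]
      field_simp
      ring
    exact (hd_log hr.1).sub l3
  · have hr0 : 0 < (1 + r) := by linarith [hr.1]
    have h2 : 0 < (1 + r) ^ 2 := by positivity
    have := h.cli r hr
    refine le_of_mul_le_mul_right ?_ h2
    refine this.trans (le_of_eq ?_)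
    field_simp
    ring

theorem LD.Ok.lu_ge (h : L.Ok) {t : ℝ} (ht : t ∈ Icc (0 : ℝ) 1) : Real.log (1 + t) ≤ L.lu t := by
  refine cmp_prim (f := fun t => Real.log (1 + t)) (g := L.lu) (f' := fun t => (1 + t)⁻¹)
    (fun r hr => hd_log hr.1) h.dlu (by rw [h.lu0]; simp) (fun r hr => ?_) ht
  have hr0 : 0 < (1 + r) := by linarith [hr.1]
  rw [inv_le_iff_one_le_mul₀ hr0]
  exact h.lui r hr

/-- `log (1 + u) ≥ u - u²/2` -/
theorem log_lower {u : ℝ} (hu : 0 ≤ u) : u - u ^ 2 / 2 ≤ Real.log (1 + u) := by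
  have hd : ∀ r ∈ Ici (0 : ℝ), HasDerivAt (fun u : ℝ => Real.log (1 + u) - (u - u ^ 2 / 2))
      ((1 + r)⁻¹ - (1 - r)) r := by
    intro r hr
    have h1 := hd_log (s := r) hr
    have h2 : HasDerivAt (fun u : ℝ => u - u ^ 2 / 2) (1 - r) r := by
      have := (hasDerivAt_id r).sub (((hasDerivAt_id r).pow 2).div_const 2)
      refine this.congr_deriv ?_
      simp
    exact h1.sub h2
  have hm : MonotoneOn (fun u : ℝ => Real.log (1 + u) - (u - u ^ 2 / 2)) (Ici 0) := by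
    refine monotoneOn_of_deriv_nonneg (convex_Ici 0)
      (fun r hr => (hd r hr).continuousAt.continuousWithinAt)
      (fun r hr => (hd r (interior_subset hr)).differentiableAt.differentiableWithinAt) ?_
    intro r hr
    have hr' : 0 ≤ r := interior_subset hr
    rw [(hd r hr').deriv]
    have h0 : 0 < 1 + r := by linarith
    have : (1 + r)⁻¹ - (1 - r) = r ^ 2 / (1 + r) := by field_simp; ring
    rw [this]
    positivity
  have := hm (mem_Ici.2 (le_refl (0 : ℝ))) (mem_Ici.2 hu) hu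
  simp only [add_zero, Real.log_one, ne_eq, OfNat.ofNat_ne_zero, not_false_eq_true, zero_pow,
    zero_div, sub_self] at this
  linarith

/-- lower bound of the final logarithm -/
theorem LD.Ok.fin_low (h : L.Ok) {w t : ℝ} (w0 : 0 ≤ w) (w1 : w ≤ 1) (ht : t ∈ Icc (0 : ℝ) 1) :
    w * Real.log (1 + t) + w * (1 - w) * L.cl t + (L.dl * t - L.dl ^ 2 * t ^ 2 / 2)
      ≤ Real.log ((1 + w * t) * (1 + L.dl * t)) := by
  have h1 := slack w0 w1 ht.1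
  have h2 := mul_le_mul_of_nonneg_left (h.cl_le ht) (mul_nonneg w0 (sub_nonneg.2 w1))
  have hd := h.hdl
  have ht0 := ht.1
  have h3 := log_lower (u := L.dl * t) (mul_nonneg hd ht0)
  rw [Real.log_mul (by positivity) (by positivity)]
  have e : (L.dl * t) ^ 2 / 2 = L.dl ^ 2 * t ^ 2 / 2 := by ring
  rw [e] at h3
  linarith

variable {x y t : ℝ} {a a' ψ1 ψ1' ψ2 ψ2' : ℝ → ℝ}

/-- the bounds of the corrections -/
structure Flb (L : LD) (x y t : ℝ) (a a' ψ1 ψ1' ψ2 ψ2' : ℝ → ℝ) : Prop extends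
    Fl x y t a ψ1 ψ1' ψ2 ψ2' where
  t1 : t ≤ 1
  xy : x + y ≤ 1
  a0 : a 0 = 1
  da : ∀ s ∈ Icc 0 t, HasDerivAt a (a' s) s
  up : ∀ s ∈ Icc 0 t, a s ≤ (1 + s)⁻¹ + L.th * L.Z s
  fr : ∀ s ∈ Icc 0 t, 0 ≤ -a' s
      - (x * (((1 + s) ^ 2)⁻¹ - ψ1' s) + y * (((1 + s) ^ 2)⁻¹ - ψ2' s))
  u1 : ∀ s ∈ Icc 0 t, x * ψ1 s ≤ x * (min x (1 / 2) * L.Z s + L.n s)
  u2 : ∀ s ∈ Icc 0 t, y * ψ2 s ≤ y * (min y (1 / 2) * L.Z s + L.n s)
  l1 : ∀ s ∈ Icc 0 t, x * (min x (1 / 2) * L.Z s - (1 - x) * L.p0 s) ≤ x * ψ1 s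
  l2 : ∀ s ∈ Icc 0 t, y * (min y (1 / 2) * L.Z s - (1 - y) * L.p0 s) ≤ y * ψ2 s
  hr : ∀ s ∈ Icc 0 t, 1 - a s - ((x + y) * (1 - (1 + s)⁻¹) - x * ψ1 s - y * ψ2 s)
      ≤ (1 - (x + y)) * (1 - (1 + s)⁻¹ + L.p0 s)

theorem Flb.sum_low (h : Flb L x y t a a' ψ1 ψ1' ψ2 ψ2') (hL : L.Ok) {s : ℝ} (hs : s ∈ Icc 0 t) :
    (x * min x (1 / 2) + y * min y (1 / 2)) * L.Z s
      - ((x + y) - (x + y) ^ 2 / 2) * L.p0 s ≤ x * ψ1 s + y * ψ2 s := by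
  have hs1 : s ∈ Icc (0 : ℝ) 1 := ⟨hs.1, hs.2.trans h.t1⟩
  have h1 := h.l1 s hs
  have h2 := h.l2 s hs
  have h3 : (x + y) ^ 2 / 2 * L.p0 s ≤ (x ^ 2 + y ^ 2) * L.p0 s :=
    mul_le_mul_of_nonneg_right (by nlinarith [sq_nonneg (x - y)]) (hL.hp0 s hs1)
  nlinarith

/-- **the main factor** -/
theorem Flb.main (h : Flb L x y t a a' ψ1 ψ1' ψ2 ψ2') (hL : L.Ok) :
    ∃ E E' : ℝ → ℝ, (∀ s ∈ Icc 0 t, HasDerivAt E (E' s) s) ∧
      (∀ s ∈ Icc 0 t, (x * (((1 + s) ^ 2)⁻¹ - ψ1' s) + y * (((1 + s) ^ 2)⁻¹ - ψ2' s)) / a s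
        ≤ E' s) ∧
      Real.exp (E t - E 0) ≤ (1 + (x + y) * t) * (1 + L.dl * t) := by
  have t0 := h.t0
  have ht : t ∈ Icc (0 : ℝ) 1 := ⟨t0, h.t1⟩
  have htt : t ∈ Icc 0 t := ⟨t0, le_rfl⟩
  have hin : ∀ s ∈ Icc 0 t, s ∈ Icc (0 : ℝ) 1 := fun s hs => ⟨hs.1, hs.2.trans h.t1⟩
  set w := x + y with hw
  have w0 : 0 ≤ w := add_nonneg h.x0 h.y0
  have hpos : 0 < (1 + w * t) * (1 + L.dl * t) := by
    have := hL.hdl; positivity
  have hfin := hL.fin_low w0 h.xy ht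
  have hsl := h.sum_low hL htt
  rw [← hw] at hsl
  have e1 := e2_low h.x0 h.y0 h.xy
  have e2 := e2_up h.x0 h.y0
  rw [← hw] at e1 e2
  set e := x * min x (1 / 2) + y * min y (1 / 2) with he
  have hT : 0 < 1 + t := by linarith
  rcases le_total w (3 / 5) with hw3 | hw3
  · obtain ⟨E, E', d1, d2, d3⟩ := h.toFl.one
      (al1 := fun s => min x (1 / 2) * L.Z s + L.n s)
      (al2 := fun s => min y (1 / 2) * L.Z s + L.n s)
      (A1 := fun s => min x (1 / 2) * L.IZ s + L.NI s)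
      (A2 := fun s => min y (1 / 2) * L.IZ s + L.NI s) h.u1 h.u2
      (fun s hs => ((hL.dIZ s (hin s hs)).const_mul _).add (hL.dNI s (hin s hs)))
      (fun s hs => ((hL.dIZ s (hin s hs)).const_mul _).add (hL.dNI s (hin s hs)))
    refine ⟨E, E', d1, d2, ?_⟩
    rw [← Real.exp_log hpos]
    refine Real.exp_le_exp.2 ?_
    rw [d3, hL.IZ0, hL.NI0]
    refine le_trans ?_ hfin
    have k1 := hL.i1 w ⟨w0, hw3⟩ t ht
    have k2 := hL.i2 w ⟨w0, hw3⟩ t ht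
    have k3 := mul_le_mul_of_nonneg_left hsl hT.le
    have key : 0 ≤ w * (1 - w) * L.cl t + (L.dl * t - L.dl ^ 2 * t ^ 2 / 2)
        + e * ((1 + t) * L.Z t - L.IZ t) + (w ^ 2 / 2 - w) * ((1 + t) * L.p0 t)
        - w * L.NI t := by
      rcases le_total 0 ((1 + t) * L.Z t - L.IZ t) with h0 | h0
      · have := mul_le_mul_of_nonneg_right e1 h0
        linarith
      · have := mul_le_mul_of_nonpos_right e2 h0
        linarith
    have e3 : x * (min x (1 / 2) * L.IZ t + L.NI t - (min x (1 / 2) * 0 + 0))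
        + y * (min y (1 / 2) * L.IZ t + L.NI t - (min y (1 / 2) * 0 + 0))
        = e * L.IZ t + w * L.NI t := by rw [he, hw]; ring
    rw [add_assoc, e3]
    nlinarith
  · -- second method with `g = 1 / ab`
    have abp : ∀ s ∈ Icc (0 : ℝ) 1, 0 < (1 + s)⁻¹ + L.th * L.Z s := fun s hs => by
      have h1 : 0 < (1 + s)⁻¹ := inv_pos.2 (by linarith [hs.1])
      have h2 := mul_nonneg hL.hth (hL.hZ s hs)
      linarith
    have dab : ∀ s ∈ Icc (0 : ℝ) 1, HasDerivAt (fun s => ((1 + s)⁻¹ + L.th * L.Z s)⁻¹)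
        ((((1 + s) ^ 2)⁻¹ - L.th * L.Z' s) / ((1 + s)⁻¹ + L.th * L.Z s) ^ 2) s := fun s hs => by
      have h1 := (hd_q hs.1).add ((hL.dZ s hs).const_mul L.th)
      refine (h1.inv (abp s hs).ne').congr_deriv ?_
      congr 1
      ring
    have sq2 : ∀ s ∈ Icc (0 : ℝ) 1, ((1 + s)⁻¹ + L.th * L.Z s) ^ 2 * (1 + s) ^ 2
        = (1 + L.th * L.Z s * (1 + s)) ^ 2 := fun s hs => by
      have : (1 + s) ≠ 0 := by linarith [hs.1]
      field_simp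
    have gn : ∀ s ∈ Icc (0 : ℝ) 1,
        0 ≤ (((1 + s) ^ 2)⁻¹ - L.th * L.Z' s) / ((1 + s)⁻¹ + L.th * L.Z s) ^ 2 := fun s hs => by
      have h1 : 0 < (1 + s) ^ 2 := by have := hs.1; positivity
      have h2 := hL.abd s hs
      refine div_nonneg ?_ (sq_nonneg _)
      rw [sub_nonneg, ← one_div, le_div_iff₀ h1]
      exact h2
    have gD : ∀ s ∈ Icc (0 : ℝ) 1,
        (((1 + s) ^ 2)⁻¹ - L.th * L.Z' s) / ((1 + s)⁻¹ + L.th * L.Z s) ^ 2 ≤ L.D s :=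
        fun s hs => by
      have h1 : 0 < (1 + s) ^ 2 := by have := hs.1; positivity
      have h2 := abp s hs
      rw [div_le_iff₀ (by positivity)]
      refine le_of_mul_le_mul_right ?_ h1
      rw [mul_assoc, sq2 s hs]
      refine le_trans (le_of_eq ?_) (hL.Di s hs)
      rw [sub_mul, inv_mul_cancel₀ h1.ne']
    obtain ⟨E, E', d1, d2, d3⟩ := h.toFl.two (p0 := L.p0) h.xy h.a0 h.da h.fr
      (fun s hs => dab s (hin s hs)) (fun s hs => gn s (hin s hs))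
      (fun s hs => by
        show ((1 + s)⁻¹ + L.th * L.Z s)⁻¹ * a s ≤ 1
        rw [inv_mul_le_iff₀ (abp s (hin s hs)), mul_one]
        exact h.up s hs)
      (fun s hs => hL.dBp s (hin s hs))
      (fun s hs => by
        have hs1 := hin s hs
        have hS : 0 < 1 + s := by linarith [hs.1]
        have h0 : 0 ≤ 1 - (1 + s)⁻¹ + L.p0 s := by
          have h1 : (1 + s)⁻¹ ≤ 1 := inv_le_one_of_one_le₀ (by linarith [hs.1])
          have := hL.hp0 s hs1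
          linarith
        refine (mul_le_mul_of_nonneg_right (gD s hs1) h0).trans ?_
        refine le_of_mul_le_mul_right ?_ hS
        refine le_trans (le_of_eq ?_) (hL.Bpi s hs1)
        field_simp
        ring) h.hr
    refine ⟨E, E', d1, d2, ?_⟩
    rw [← Real.exp_log hpos]
    refine Real.exp_le_exp.2 (d3.trans (le_trans ?_ hfin))
    rw [hL.Bp0]
    have k3 := hL.i3 w ⟨hw3, h.xy⟩ t ht
    have hlu := hL.lu_ge ht
    have hAB := abp t ht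
    set A := (1 + t)⁻¹ + L.th * L.Z t with hA
    have hA1 : 1 + L.th * L.Z t * (1 + t) = A * (1 + t) := by
      rw [hA, add_mul, inv_mul_cancel₀ hT.ne']
    rw [hA1] at k3
    have hw1 : 0 ≤ 1 - w := sub_nonneg.2 h.xy
    have k4 := mul_le_mul_of_nonneg_left hlu hw1
    have k5 : A⁻¹ * ((e * L.Z t - (w - w ^ 2 / 2) * L.p0 t)) ≤ A⁻¹ * (x * ψ1 t + y * ψ2 t) :=
      mul_le_mul_of_nonneg_left hsl (inv_pos.2 hAB).le
    have k6 : 7 / 16 * w ^ 2 * L.Z t ≤ e * L.Z t := mul_le_mul_of_nonneg_right e1 (hL.hZ t ht)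
    have k7 : A⁻¹ * (7 / 16 * w ^ 2 * L.Z t - (w - w ^ 2 / 2) * L.p0 t)
        ≤ A⁻¹ * (e * L.Z t - (w - w ^ 2 / 2) * L.p0 t) :=
      mul_le_mul_of_nonneg_left (by linarith) (inv_pos.2 hAB).le
    -- divide the inequality by `A (1 + t)`
    have k8 : 0 ≤ (w * (1 - w) * L.cl t + (L.dl * t - L.dl ^ 2 * t ^ 2 / 2)
        - (1 - w) * (L.lu t + L.Bp t)) + A⁻¹ * ((1 - w) * (1 - (1 + t)⁻¹)
        + (7 / 16 * w ^ 2 * L.Z t - (w - w ^ 2 / 2) * L.p0 t)) := by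
      have h1 : 0 < A * (1 + t) := mul_pos hAB hT
      refine le_of_mul_le_mul_left ?_ h1
      rw [mul_zero]
      refine le_trans k3 (le_of_eq ?_)
      field_simp
      ring
    have e4 : (1 - w) * (1 - (1 + t)⁻¹) = (1 - w) * (1 - (1 + t)⁻¹) := rfl
    have k9 : A⁻¹ * ((1 - w) * (1 - (1 + t)⁻¹)
        + (7 / 16 * w ^ 2 * L.Z t - (w - w ^ 2 / 2) * L.p0 t))
        = A⁻¹ * ((1 - w) * (1 - (1 + t)⁻¹))
          + A⁻¹ * (7 / 16 * w ^ 2 * L.Z t - (w - w ^ 2 / 2) * L.p0 t) := by ring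
    rw [k9] at k8
    show Real.log (1 + t) - A⁻¹ * ((1 - w) * (1 - (1 + t)⁻¹)) - A⁻¹ * (x * ψ1 t + y * ψ2 t)
      + (1 - w) * (L.Bp t - 0) ≤ _
    linarith

end Pool.Agent.RZ.RCE
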