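import Pool.Agent.RZ.RCM9.PVal
import Pool.Agent.RZ.RCM9.PkR

/-! Polynomial expressions which are nonnegative on the cube (MP_73ccd0_lc, route M, density
errors). -/

set_option autoImplicit false

namespace Pool.Agent.RZ.RCE

open Set Pool.Agent.RZ.RCM9 Pool.Agent.RZ.RCM9.Bern Pool.Agent.RZ.RCM9.Pk

/-- nonnegative on the cube -/
def N4 (e : E) : Prop := ∀ X Z U T : ℝ, X ∈ Icc (0 : ℝ) 1 → Z ∈ Icc (0 : ℝ) 1 →
  U ∈ Icc (0 : ℝ) 1 → T ∈ Icc (0 : ℝ) 1 → 0 ≤ e.val (pt X Z U T)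

theorem N4.of {K : ℕ} {D : Dim} {e : E} (h : Box K D e []) (h0 : hdr K D e = true) : N4 e :=
  fun _ _ _ _ hX hZ hU hT => h.pos4 h0 hX.1 hX.2 hZ.1 hZ.2 hU.1 hU.2 hT.1 hT.2

theorem i0 : (0 : ℝ) ∈ Icc (0 : ℝ) 1 := ⟨le_rfl, zero_le_one⟩

theorem N4.t {e : E} (h : N4 e) {T : ℝ} (hT : T ∈ Icc (0 : ℝ) 1) : 0 ≤ e.val (pt 0 0 0 T) :=
  h 0 0 0 T i0 i0 i0 hT

def wT : E := E.var 3

section
variable (X Z U T : ℝ)
theorem val_wT : wT.val (pt X Z U T) = T := rfl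
end

theorem val_num (n : ℤ) (m : ℕ) (ρ : ℕ → ℝ) : (E.num n m).val ρ = (n : ℝ) / (m : ℝ) := rfl

/-- the upper bound of the exponential on `[0, 8/5]` -/
def T5 (z : E) : E := 1 + z + z ^ 2 * E.num 1 2 + z ^ 3 * E.num 1 6 + z ^ 4 * E.num 1 24
  + z ^ 5 * E.num 1 88

/-- the same for real numbers -/
noncomputable def t5 (z : ℝ) : ℝ := 1 + z + z ^ 2 / 2 + z ^ 3 / 6 + z ^ 4 / 24 + z ^ 5 / 88

theorem val_T5 (ρ : ℕ → ℝ) (z : E) : (T5 z).val ρ = t5 (z.val ρ) := by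
  unfold t5
  simp only [T5, val_add, val_mul, val_pow, val_one, val_num]
  push_cast
  ring

theorem map_mem {u U0 : ℝ} (h0 : 0 ≤ U0) (hu : u ∈ Icc 0 U0) : ∃ T ∈ Icc (0 : ℝ) 1, U0 * T = u := by
  rcases h0.eq_or_lt with h | h
  · exact ⟨0, i0, by subst h; linarith [hu.1, hu.2]⟩
  · exact ⟨u / U0, ⟨div_nonneg hu.1 h0, (div_le_one h).2 hu.2⟩, mul_div_cancel₀ _ h.ne'⟩

theorem map_mem2 {u a b : ℝ} (hu : u ∈ Icc a b) : ∃ T ∈ Icc (0 : ℝ) 1, a + (b - a) * T = u := by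
  obtain ⟨T, hT, e⟩ := map_mem (u := u - a) (U0 := b - a) (by linarith [hu.1, hu.2])
    ⟨by linarith [hu.1], by linarith [hu.2]⟩
  exact ⟨T, hT, by linarith⟩

/-- value at a rational point -/
def evq : List ℚ → ℚ → ℚ
  | [], _ => 0
  | a :: l, q => a + q * evq l q

theorem pv_evq (l : List ℚ) (q : ℚ) : pv l (q : ℝ) = (evq l q : ℝ) := by
  induction l with
  | nil => simp [pv, evq]
  | cons a l ih =>
    simp only [pv, evq, ih]
    push_cast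
    ring

/-- Taylor with a bigger last coefficient on `[0, 81/50]`. -/
theorem exp_t5 {z : ℝ} (z0 : 0 ≤ z) (z1 : z ≤ 81 / 50) :
    Real.exp z ≤ t5 z := by
  unfold t5
  obtain ⟨w, hw⟩ : ∃ w : ℝ, w = z / 2 := ⟨_, rfl⟩
  have w0 : 0 ≤ w := by linarith
  have w1 : w ≤ 81 / 100 := by linarith
  have h := Real.exp_bound' w0 (by linarith) (n := 5) (by norm_num)
  simp only [Finset.sum_range_succ, Finset.sum_range_zero, Nat.factorial] at h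
  norm_num at h
  have hP : Real.exp w ≤ 1 + w + w ^ 2 / 2 + w ^ 3 / 6 + w ^ 4 / 24 + w ^ 5 / 100 := by
    linarith
  have h2 : Real.exp z ≤
      (1 + w + w ^ 2 / 2 + w ^ 3 / 6 + w ^ 4 / 24 + w ^ 5 / 100) ^ 2 := by
    have e : Real.exp z = Real.exp w ^ 2 := by
      rw [← Real.exp_nat_mul, hw]
      congr 1
      push_cast
      ring
    rw [e]
    have := (Real.exp_pos w).le
    gcongr
  have hz : z = 2 * w := by linarith
  have w5 : 0 ≤ w ^ 5 := by positivity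
  have w6 : w ^ 6 ≤ 81 / 100 * w ^ 5 := by nlinarith
  have w7 : w ^ 7 ≤ 81 / 100 * w ^ 6 := by
    have : 0 ≤ w ^ 6 := by positivity
    nlinarith
  have w8 : w ^ 8 ≤ 81 / 100 * w ^ 7 := by
    have : 0 ≤ w ^ 7 := by positivity
    nlinarith
  have w9 : w ^ 9 ≤ 81 / 100 * w ^ 8 := by
    have : 0 ≤ w ^ 8 := by positivity
    nlinarith
  have w10 : w ^ 10 ≤ 81 / 100 * w ^ 9 := by
    have : 0 ≤ w ^ 9 := by positivity
    nlinarith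
  have e2 : (1 + w + w ^ 2 / 2 + w ^ 3 / 6 + w ^ 4 / 24 + w ^ 5 / 100) ^ 2 =
      1 + 2 * w + 2 * w ^ 2 + 4 / 3 * w ^ 3 + 2 / 3 * w ^ 4 + 27 / 100 * w ^ 5 +
        161 / 1800 * w ^ 6 + 43 / 1800 * w ^ 7 + 73 / 14400 * w ^ 8 + 1 / 1200 * w ^ 9 +
        1 / 10000 * w ^ 10 := by ring
  rw [e2] at h2
  rw [hz] at h2 ⊢
  nlinarith

end Pool.Agent.RZ.RCE
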