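import Pool.Agent.RZ.RCE.Nn

/-! The rates of the density errors as rational polynomials of the time (MP_73ccd0_lc, route M). -/

set_option autoImplicit false
set_option linter.unusedSectionVars false

namespace Pool.Agent.RZ.RCE

open Set Pool.Agent.RZ.RCM9 Pool.Agent.RZ.RCM9.Bern Pool.Agent.RZ.RCM9.Pk

/-- the lower bound of `e^{-z}` -/
noncomputable def l5 (z : ℝ) : ℝ := 1 - z + z ^ 2 / 2 - z ^ 3 / 6 + z ^ 4 / 24 - z ^ 5 / 120

def L5 (z : E) : E := 1 - z + z ^ 2 * E.num 1 2 - z ^ 3 * E.num 1 6 + z ^ 4 * E.num 1 24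
  - z ^ 5 * E.num 1 120

theorem val_L5 (ρ : ℕ → ℝ) (z : E) : (L5 z).val ρ = l5 (z.val ρ) := by
  unfold l5
  simp only [L5, val_add, val_sub, val_mul, val_pow, val_one, val_num]
  push_cast
  ring

theorem l5_le {v : ℝ} (hv : 0 ≤ v) : l5 v ≤ Real.exp (-v) := by
  have mono : ∀ (f f' : ℝ → ℝ), (∀ x, HasDerivAt f (f' x) x) → f 0 = 0 →
      (∀ x, 0 ≤ x → 0 ≤ f' x) → ∀ x, 0 ≤ x → 0 ≤ f x := by
    intro f f' hd h0 hp x hx
    have hm : MonotoneOn f (Ici 0) := by
      refine monotoneOn_of_deriv_nonneg (convex_Ici 0)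
        (fun r _ => (hd r).continuousAt.continuousWithinAt)
        (fun r _ => (hd r).differentiableAt.differentiableWithinAt) ?_
      intro r hr
      rw [(hd r).deriv]
      exact hp r (interior_subset hr)
    have := hm (mem_Ici.2 le_rfl) (mem_Ici.2 hx) hx
    rwa [h0] at this
  have de : ∀ x : ℝ, HasDerivAt (fun v : ℝ => Real.exp (-v)) (-Real.exp (-x)) x := by
    intro x
    have := (hasDerivAt_neg x).exp
    refine this.congr_deriv ?_
    ring
  have d1 : ∀ x : ℝ, HasDerivAt (fun v : ℝ => v) 1 x := fun x => hasDerivAt_id' x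
  have dn : ∀ (n : ℕ) (c e : ℝ), (n + 1 : ℝ) * e = c → ∀ x : ℝ,
      HasDerivAt (fun v : ℝ => v ^ (n + 1) * e) (x ^ n * c) x := by
    intro n c e hce x
    refine ((hasDerivAt_pow (n + 1) x).mul_const e).congr_deriv ?_
    rw [← hce]
    push_cast
    ring
  have d2 := dn 1 1 (1 / 2) (by norm_num)
  have d3 := dn 2 (1 / 2) (1 / 6) (by norm_num)
  have d4 := dn 3 (1 / 6) (1 / 24) (by norm_num)
  have d5 := dn 4 (1 / 24) (1 / 120) (by norm_num)
  have s1 : ∀ x : ℝ, 0 ≤ x → 0 ≤ Real.exp (-x) - (1 - x) := by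
    intro x _
    have := Real.one_sub_le_exp_neg x
    linarith
  have s2 : ∀ x : ℝ, 0 ≤ x → 0 ≤ 1 - x + x ^ (1 + 1) * (1 / 2) - Real.exp (-x) :=
    mono _ _ (fun x => (((d1 x).const_sub 1).add (d2 x)).sub (de x)) (by simp)
      (fun x hx => by have := s1 x hx; simp only [pow_one]; linarith)
  have s3 : ∀ x : ℝ, 0 ≤ x →
      0 ≤ Real.exp (-x) - (1 - x + x ^ (1 + 1) * (1 / 2) - x ^ (2 + 1) * (1 / 6)) :=
    mono _ _ (fun x => (de x).sub ((((d1 x).const_sub 1).add (d2 x)).sub (d3 x))) (by simp)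
      (fun x hx => by have := s2 x hx; simp only [pow_one]; norm_num at this ⊢; linarith)
  have s4 : ∀ x : ℝ, 0 ≤ x → 0 ≤ 1 - x + x ^ (1 + 1) * (1 / 2) - x ^ (2 + 1) * (1 / 6)
      + x ^ (3 + 1) * (1 / 24) - Real.exp (-x) :=
    mono _ _ (fun x => ((((d1 x).const_sub 1).add (d2 x)).sub (d3 x)).add (d4 x) |>.sub (de x))
      (by simp) (fun x hx => by have := s3 x hx; simp only [pow_one]; norm_num at this ⊢; linarith)
  have s5 : ∀ x : ℝ, 0 ≤ x → 0 ≤ Real.exp (-x) - (1 - x + x ^ (1 + 1) * (1 / 2)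
      - x ^ (2 + 1) * (1 / 6) + x ^ (3 + 1) * (1 / 24) - x ^ (4 + 1) * (1 / 120)) :=
    mono _ _ (fun x => (de x).sub (((((d1 x).const_sub 1).add (d2 x)).sub (d3 x)).add (d4 x)
      |>.sub (d5 x))) (by simp)
      (fun x hx => by have := s4 x hx; simp only [pow_one]; norm_num at this ⊢; linarith)
  have h := s5 v hv
  unfold l5
  norm_num at h ⊢
  linarith

namespace TDat

section

end

end TDat

end Pool.Agent.RZ.RCE
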