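import Pool.Agent.RZ.RCE.Nn

/-! The rates of the density errors on the whole time interval: the norm system up to a time,
bounds of the pointwise rates up to a second time, trivial rates afterwards; the exponents are
polynomials with one knot (MP_73ccd0_lc, route M). -/

set_option autoImplicit false
set_option linter.unusedSectionVars false

namespace Pool.Agent.RZ.RCE

open Set Pool.Agent.RZ.RCM9 Pool.Agent.RZ.RCM9.Bern Pool.Agent.RZ.RCM9.Pk

/-- the derivative of a truncated polynomial -/
theorem hasDerivAt_trunc {l : List ℚ} (h0 : evq l 0 = 0) (τ r : ℝ) :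
    HasDerivAt (fun r => pv (pri l) (max 0 (r - τ))) (pv l (max 0 (r - τ))) r := by
  have h0' : pv l 0 = 0 := by
    have h1 := pv_evq l 0
    rw [h0] at h1
    simpa using h1
  have hL : HasDerivWithinAt (fun r => pv (pri l) (max 0 (r - τ))) (pv l (max 0 (r - τ)))
      (Iic τ) r ∨ τ < r := by
    rcases le_or_gt r τ with h | h
    · left
      have e : ∀ z ∈ Iic τ, pv (pri l) (max 0 (z - τ)) = pv (pri l) 0 := fun z hz => by
        rw [max_eq_left (by linarith [mem_Iic.1 hz])]
      have e2 : pv l (max 0 (r - τ)) = 0 := by
        rw [max_eq_left (by linarith), h0']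
      rw [e2]
      exact (hasDerivWithinAt_const r (Iic τ) (pv (pri l) 0)).congr e (e r h)
    · exact Or.inr h
  have hR : HasDerivWithinAt (fun r => pv (pri l) (max 0 (r - τ))) (pv l (max 0 (r - τ)))
      (Ici τ) r ∨ r < τ := by
    rcases le_or_gt τ r with h | h
    · left
      have e : ∀ z ∈ Ici τ, pv (pri l) (max 0 (z - τ)) = pv (pri l) (z - τ) := fun z hz => by
        rw [max_eq_right (by linarith [mem_Ici.1 hz])]
      have e2 : pv l (max 0 (r - τ)) = pv l (r - τ) := by
        rw [max_eq_right (by linarith)]
      rw [e2]
      have h1 : HasDerivAt (fun z => pv (pri l) (z - τ)) (pv l (r - τ)) r := by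
        have := (hasDerivAt_pri l (r - τ)).comp r ((hasDerivAt_id' r).sub_const τ)
        rw [mul_one] at this
        exact this
      exact h1.hasDerivWithinAt.congr e (e r h)
    · exact Or.inr h
  rcases hL with hL | hL
  · rcases hR with hR | hR
    · have h := hL.union hR
      rwa [Iic_union_Ici, hasDerivWithinAt_univ] at h
    · exact hL.hasDerivAt (Iic_mem_nhds hR)
  · rcases hR with hR | hR
    · exact hR.hasDerivAt (Ici_mem_nhds hL)
    · linarith

namespace TDt4

section vals

end vals

section

end

end TDt4

end Pool.Agent.RZ.RCE
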