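import Pool.Agent.RZ.RCE.TDt4

/-! The rates of the density errors on the whole time interval, with a rate after the time `s`
which depends on `s`: bounds of the pointwise rates up to the time `t2`, trivial rates afterwards;
the exponents are polynomials with one knot (MP_73ccd0_lc, route P). -/

set_option autoImplicit false
set_option linter.unusedSectionVars false

namespace Pool.Agent.RZ.RCE

open Set Pool.Agent.RZ.RCM9 Pool.Agent.RZ.RCM9.Bern Pool.Agent.RZ.RCM9.Pk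

/-- `1 + z + z² / 2 + z³ / 6 ≤ e^z` -/
theorem t3_le {z : ℝ} (hz : 0 ≤ z) : 1 + z + z ^ 2 / 2 + z ^ 3 / 6 ≤ Real.exp z := by
  have h := Real.sum_le_exp_of_nonneg hz 4
  simp only [Finset.sum_range_succ, Finset.sum_range_zero, Nat.factorial] at h
  norm_num at h
  linarith

/-- the data of the rates on `[0, 1]`: `q1` (vertex `a`, equal times), `q2` (pair), `q3 + q4 s²`
(vertex `a`, after the time `s`) up to `t2`, the trivial rates afterwards; `ap`, `cp`, `bp`, `ep`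
are the corresponding exponents' derivatives, `ap2`, `cp2`, `ep2` the additional slopes after the
knot `τ` (in the variable `r - τ`); `kA`, `kq` are bounds of the exponentials, `cl` is a lower bound
of the exponent `A` -/
structure TDt5 where
  t2 : ℚ
  τ : ℚ
  th : ℚ
  y0 : ℚ
  ρ0 : ℚ
  mb : List ℚ
  bq : List ℚ
  q1 : List ℚ
  q2 : List ℚ
  q3 : List ℚ
  q4 : List ℚ
  ap : List ℚ
  ap2 : List ℚ
  cp : List ℚ
  cp2 : List ℚ
  bp : List ℚ
  ep : List ℚ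
  ep2 : List ℚ
  kA : List ℚ
  kq : List ℚ
  cl : List ℚ

/-- a primitive with one knot -/
noncomputable def kn (l l2 : List ℚ) (τ r : ℝ) : ℝ := pv (pri l) r + pv (pri l2) (max 0 (r - τ))
/-- its derivative -/
noncomputable def kn' (l l2 : List ℚ) (τ r : ℝ) : ℝ := pv l r + pv l2 (max 0 (r - τ))

section kn

variable {l l2 : List ℚ} {τ : ℝ}

theorem kn_zero (hτ : 0 ≤ τ) : kn l l2 τ 0 = 0 := by
  unfold kn
  rw [max_eq_left (by linarith), pri_zero, pri_zero, add_zero]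

theorem kn_deriv (h0 : evq l2 0 = 0) (r : ℝ) : HasDerivAt (kn l l2 τ) (kn' l l2 τ r) r :=
  (hasDerivAt_pri _ r).add (hasDerivAt_trunc h0 _ r)

theorem kn_cont : Continuous (kn l l2 τ) :=
  (continuous_pv _).add ((continuous_pv _).comp (continuous_const.max (by fun_prop)))

theorem kn'_lo (h0 : evq l2 0 = 0) {r : ℝ} (hr : r ≤ τ) : kn' l l2 τ r = pv l r := by
  have h1 := pv_evq l2 0
  rw [h0] at h1
  unfold kn'
  rw [max_eq_left (by linarith)]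
  have h2 : pv l2 0 = 0 := by simpa using h1
  rw [h2, add_zero]

theorem kn'_hi {r : ℝ} (hr : τ ≤ r) : kn' l l2 τ r = pv l r + pv l2 (r - τ) := by
  unfold kn'
  rw [max_eq_right (by linarith)]

theorem kn_hi {r : ℝ} (hr : τ ≤ r) : kn l l2 τ r = pv (pri l) r + pv (pri l2) (r - τ) := by
  unfold kn
  rw [max_eq_right (by linarith)]

end kn

namespace TDt5

variable (g : TDt5)

/-- the exponents and their derivatives -/
noncomputable def A1 (r : ℝ) : ℝ := kn g.ap g.ap2 (g.τ : ℝ) r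
noncomputable def A (r : ℝ) : ℝ := kn g.cp g.cp2 (g.τ : ℝ) r
noncomputable def e (r : ℝ) : ℝ := kn g.ep g.ep2 (g.τ : ℝ) r
noncomputable def B (r : ℝ) : ℝ := pv (pri g.bp) r
noncomputable def A1' (r : ℝ) : ℝ := kn' g.ap g.ap2 (g.τ : ℝ) r
noncomputable def A' (r : ℝ) : ℝ := kn' g.cp g.cp2 (g.τ : ℝ) r
noncomputable def e' (r : ℝ) : ℝ := kn' g.ep g.ep2 (g.τ : ℝ) r
/-- the factor of the weight in the exponent of the vertex `a`: `1` (`th = 0`) or `1 - w / 2`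
(`th = 1`) -/
noncomputable def kw (w : ℝ) : ℝ := 1 - w * (g.th : ℝ) / 2
/-- the exponent of the vertex `a` -/
noncomputable def X (t s : ℝ) : ℝ := g.A1 s + (g.A t - g.A s) + s ^ 2 * (g.B t - g.B s)

/-- the parametrisations of `[0, τ]`, `[τ, t2]`, `[t2, 1]`, `[τ, 1]` -/
def tO : E := qc g.τ * wT
def kB : E := (qc g.t2 - qc g.τ) * wT
def tB : E := qc g.τ + g.kB
def kC : E := qc (g.t2 - g.τ) + (1 - qc g.t2) * wT
def tC : E := qc g.τ + g.kC
def kD : E := (1 - qc g.τ) * wT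
def tD : E := qc g.τ + g.kD
def tT : E := qc g.t2 * wT

/-- the derivative in the parametrisations -/
def dE (l l2 : List ℚ) (t k : E) : E := pe l t + pe l2 k
def pE (l l2 : List ℚ) (t k : E) : E := pe (pri l) t + pe (pri l2) k
def T3 (z : E) : E := 1 + z + z ^ 2 * E.num 1 2 + z ^ 3 * E.num 1 6

def eA (t k : E) : E := pe g.kA t - T5 (pE g.cp g.cp2 t k)
def eQ (t k : E) : E := pe g.kq t * T3 (pE g.cp g.cp2 t k + t ^ 2 * pe (pri g.bp) t)
  - T5 (pE g.ep g.ep2 t k + pE g.ap g.ap2 t k)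
def eL (t k : E) : E := pE g.cp g.cp2 t k - pe g.cl t

structure Pos : Prop where
  mb : N4 (pe g.mb wT - 1)
  bq : N4 (pe g.bq wT)
  h1A : N4 (pe g.ap g.tO - pe g.bq g.tO * pe g.q1 g.tO)
  h1B : N4 (dE g.ap g.ap2 g.tB g.kB - pe g.bq g.tB * pe g.q1 g.tB)
  h1C : g.t2 = 1 ∨ N4 (dE g.ap g.ap2 g.tC g.kC - pe g.bq g.tC)
  h2A : N4 (pe g.ep g.tO - pe g.mb g.tO * pe g.q2 g.tO)
  h2B : N4 (dE g.ep g.ep2 g.tB g.kB - pe g.mb g.tB * pe g.q2 g.tB)
  h2C : g.t2 = 1 ∨ N4 (dE g.ep g.ep2 g.tC g.kC - 2 * pe g.mb g.tC)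
  h3A : N4 (pe g.cp g.tO - pe g.bq g.tO * pe g.q3 g.tO)
  h3B : N4 (dE g.cp g.cp2 g.tB g.kB - pe g.bq g.tB * pe g.q3 g.tB)
  h3C : g.t2 = 1 ∨ N4 (dE g.cp g.cp2 g.tC g.kC - pe g.bq g.tC)
  h4 : N4 (pe g.bp g.tT - pe g.bq g.tT * pe g.q4 g.tT)
  a0O : N4 (pe g.ap g.tO)
  a0D : N4 (dE g.ap g.ap2 g.tD g.kD)
  c0O : N4 (pe g.cp g.tO)
  c0D : N4 (dE g.cp g.cp2 g.tD g.kD)
  e0O : N4 (pe g.ep g.tO)
  e0D : N4 (dE g.ep g.ep2 g.tD g.kD)
  b0 : N4 (pe g.bp wT)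
  acO : N4 (pE g.ap g.ap2 g.tO (qc 0) - pE g.cp g.cp2 g.tO (qc 0))
  acD : N4 (pE g.ap g.ap2 g.tD g.kD - pE g.cp g.cp2 g.tD g.kD)
  kAO : N4 (g.eA g.tO (qc 0))
  kAD : N4 (g.eA g.tD g.kD)
  kqO : N4 (g.eQ g.tO (qc 0))
  kqD : N4 (g.eQ g.tD g.kD)
  clO : N4 (g.eL g.tO (qc 0))
  clD : N4 (g.eL g.tD g.kD)
  cl0 : N4 (pe g.cl wT)

structure Bd : Prop where
  th0 : 0 ≤ g.th
  th1 : g.th ≤ 1
  τ0 : 0 ≤ g.τ
  τt : g.τ ≤ g.t2
  t1 : g.t2 ≤ 1
  z1 : evq g.ap2 0 = 0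
  z2 : evq g.ep2 0 = 0
  z3 : evq g.cp2 0 = 0
  a1 : evq (pri g.ap) 1 + evq (pri g.ap2) (1 - g.τ)
    + (evq (pri g.ep) 1 + evq (pri g.ep2) (1 - g.τ)) ≤ 81 / 50
  c1 : evq (pri g.cp) 1 + evq (pri g.cp2) (1 - g.τ) ≤ 81 / 50
  b1 : evq (pri g.bp) 1 ≤ g.y0
  y0 : 0 < g.y0
  y1 : g.y0 ≤ 81 / 50
  ρ : g.y0 + g.y0 ^ 2 / 2 + g.y0 ^ 3 / 6 + g.y0 ^ 4 / 24 + g.y0 ^ 5 / 88 ≤ g.ρ0 * g.y0

variable {g}

section vals

variable (X Z U T : ℝ)

theorem val_tO : (g.tO).val (pt X Z U T) = (g.τ : ℝ) * T := by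
  simp only [tO, val_mul, val_qc, val_wT]

theorem val_tT : (g.tT).val (pt X Z U T) = (g.t2 : ℝ) * T := by
  simp only [tT, val_mul, val_qc, val_wT]

theorem val_kB : (g.kB).val (pt X Z U T) = ((g.t2 : ℝ) - (g.τ : ℝ)) * T := by
  simp only [kB, val_sub, val_mul, val_qc, val_wT]

theorem val_tB : (g.tB).val (pt X Z U T) = (g.τ : ℝ) + ((g.t2 : ℝ) - (g.τ : ℝ)) * T := by
  simp only [tB, val_add, val_qc, val_kB]

theorem val_kC : (g.kC).val (pt X Z U T)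
    = ((g.t2 : ℝ) - (g.τ : ℝ)) + (1 - (g.t2 : ℝ)) * T := by
  simp only [kC, val_add, val_sub, val_mul, val_qc, val_wT, val_one]
  push_cast
  ring

theorem val_tC : (g.tC).val (pt X Z U T)
    = (g.τ : ℝ) + (((g.t2 : ℝ) - (g.τ : ℝ)) + (1 - (g.t2 : ℝ)) * T) := by
  simp only [tC, val_add, val_qc, val_kC]

theorem val_kD : (g.kD).val (pt X Z U T) = (1 - (g.τ : ℝ)) * T := by
  simp only [kD, val_sub, val_mul, val_qc, val_wT, val_one]

theorem val_tD : (g.tD).val (pt X Z U T) = (g.τ : ℝ) + (1 - (g.τ : ℝ)) * T := by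
  simp only [tD, val_add, val_qc, val_kD]

end vals

theorem val_dE (ρ : ℕ → ℝ) (l l2 : List ℚ) (t k : E) :
    (dE l l2 t k).val ρ = pv l (t.val ρ) + pv l2 (k.val ρ) := by
  simp only [dE, val_add, val_pe]

theorem val_pE (ρ : ℕ → ℝ) (l l2 : List ℚ) (t k : E) :
    (pE l l2 t k).val ρ = pv (pri l) (t.val ρ) + pv (pri l2) (k.val ρ) := by
  simp only [pE, val_add, val_pe]

theorem val_T3 (ρ : ℕ → ℝ) (z : E) :
    (T3 z).val ρ = 1 + z.val ρ + (z.val ρ) ^ 2 / 2 + (z.val ρ) ^ 3 / 6 := by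
  simp only [T3, val_add, val_mul, val_pow, val_one, val_num]
  push_cast
  ring

section

variable (hP : g.Pos) (hB : g.Bd)

theorem Bd.τ0' (hB : g.Bd) : (0 : ℝ) ≤ (g.τ : ℝ) := by exact_mod_cast hB.τ0
theorem Bd.τt' (hB : g.Bd) : (g.τ : ℝ) ≤ (g.t2 : ℝ) := by exact_mod_cast hB.τt
theorem Bd.t1' (hB : g.Bd) : (g.t2 : ℝ) ≤ 1 := by exact_mod_cast hB.t1

/-- an inequality for a derivative with a knot on `[0, t2]` from its two pieces -/
theorem late_aux {l l2 : List ℚ} {f : ℝ → ℝ} (hB : g.Bd) (h0 : evq l2 0 = 0)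
    (h1 : ∀ T ∈ Icc (0 : ℝ) 1, f ((g.τ : ℝ) * T) ≤ pv l ((g.τ : ℝ) * T))
    (h2 : ∀ T ∈ Icc (0 : ℝ) 1, f ((g.τ : ℝ) + ((g.t2 : ℝ) - (g.τ : ℝ)) * T)
      ≤ pv l ((g.τ : ℝ) + ((g.t2 : ℝ) - (g.τ : ℝ)) * T) + pv l2 (((g.t2 : ℝ) - (g.τ : ℝ)) * T))
    {r : ℝ} (hr : r ∈ Icc (0 : ℝ) g.t2) : f r ≤ kn' l l2 (g.τ : ℝ) r := by
  rcases le_total r (g.τ : ℝ) with h | h
  · rw [kn'_lo h0 h]
    obtain ⟨T, hT, rfl⟩ := map_mem hB.τ0' ⟨hr.1, h⟩
    exact h1 T hT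
  · rw [kn'_hi h]
    obtain ⟨T, hT, hTe⟩ := map_mem2 (u := r) (a := (g.τ : ℝ)) (b := (g.t2 : ℝ)) ⟨h, hr.2⟩
    have h3 := h2 T hT
    rw [hTe] at h3
    rw [show r - (g.τ : ℝ) = ((g.t2 : ℝ) - (g.τ : ℝ)) * T by linarith]
    exact h3

/-- an inequality on `(t2, 1]` -/
theorem triv_aux {l l2 : List ℚ} {f : ℝ → ℝ} (hB : g.Bd)
    (h1 : g.t2 = 1 ∨ ∀ T ∈ Icc (0 : ℝ) 1,
      f ((g.τ : ℝ) + (((g.t2 : ℝ) - (g.τ : ℝ)) + (1 - (g.t2 : ℝ)) * T))
        ≤ pv l ((g.τ : ℝ) + (((g.t2 : ℝ) - (g.τ : ℝ)) + (1 - (g.t2 : ℝ)) * T))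
          + pv l2 (((g.t2 : ℝ) - (g.τ : ℝ)) + (1 - (g.t2 : ℝ)) * T))
    {r : ℝ} (hlt : (g.t2 : ℝ) < r) (hr1 : r ≤ 1) : f r ≤ kn' l l2 (g.τ : ℝ) r := by
  rcases h1 with h | h
  · exfalso
    rw [h] at hlt
    push_cast at hlt
    linarith
  · rw [kn'_hi (hB.τt'.trans hlt.le)]
    obtain ⟨T, hT, hTe⟩ := map_mem2 (u := r) (a := (g.t2 : ℝ)) (b := 1) ⟨hlt.le, hr1⟩
    have h3 := h T hT
    rw [show (g.τ : ℝ) + (((g.t2 : ℝ) - (g.τ : ℝ)) + (1 - (g.t2 : ℝ)) * T) = r by linarith] at h3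
    rw [show r - (g.τ : ℝ) = ((g.t2 : ℝ) - (g.τ : ℝ)) + (1 - (g.t2 : ℝ)) * T by linarith]
    exact h3

/-- a function with a knot on `[0, 1]` -/
theorem all_aux {G : ℝ → ℝ → ℝ} (hB : g.Bd)
    (h1 : ∀ T ∈ Icc (0 : ℝ) 1, 0 ≤ G ((g.τ : ℝ) * T) 0)
    (h2 : ∀ T ∈ Icc (0 : ℝ) 1, 0 ≤ G ((g.τ : ℝ) + (1 - (g.τ : ℝ)) * T) ((1 - (g.τ : ℝ)) * T))
    {r : ℝ} (hr : r ∈ Icc (0 : ℝ) 1) : 0 ≤ G r (max 0 (r - (g.τ : ℝ))) := by
  rcases le_total r (g.τ : ℝ) with h | h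
  · rw [max_eq_left (by linarith)]
    obtain ⟨T, hT, rfl⟩ := map_mem hB.τ0' ⟨hr.1, h⟩
    exact h1 T hT
  · rw [max_eq_right (by linarith)]
    obtain ⟨T, hT, hTe⟩ := map_mem2 (u := r) (a := (g.τ : ℝ)) (b := 1) ⟨h, hr.2⟩
    have h3 := h2 T hT
    rw [hTe] at h3
    rwa [show r - (g.τ : ℝ) = (1 - (g.τ : ℝ)) * T by linarith]

include hP hB

theorem late1 {r : ℝ} (hr : r ∈ Icc (0 : ℝ) g.t2) : pv g.bq r * pv g.q1 r ≤ g.A1' r :=
  late_aux (f := fun r => pv g.bq r * pv g.q1 r) hB hB.z1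
    (fun T hT => by
      have h := hP.h1A.t hT
      simp only [val_sub, val_mul, val_pe, val_tO] at h
      linarith)
    (fun T hT => by
      have h := hP.h1B.t hT
      simp only [val_sub, val_mul, val_pe, val_dE, val_tB, val_kB] at h
      linarith) hr

theorem late2 {r : ℝ} (hr : r ∈ Icc (0 : ℝ) g.t2) : pv g.mb r * pv g.q2 r ≤ g.e' r :=
  late_aux (f := fun r => pv g.mb r * pv g.q2 r) hB hB.z2
    (fun T hT => by
      have h := hP.h2A.t hT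
      simp only [val_sub, val_mul, val_pe, val_tO] at h
      linarith)
    (fun T hT => by
      have h := hP.h2B.t hT
      simp only [val_sub, val_mul, val_pe, val_dE, val_tB, val_kB] at h
      linarith) hr

theorem late3 {r : ℝ} (hr : r ∈ Icc (0 : ℝ) g.t2) : pv g.bq r * pv g.q3 r ≤ g.A' r :=
  late_aux (f := fun r => pv g.bq r * pv g.q3 r) hB hB.z3
    (fun T hT => by
      have h := hP.h3A.t hT
      simp only [val_sub, val_mul, val_pe, val_tO] at h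
      linarith)
    (fun T hT => by
      have h := hP.h3B.t hT
      simp only [val_sub, val_mul, val_pe, val_dE, val_tB, val_kB] at h
      linarith) hr

omit hB in
theorem late4 {r : ℝ} (t0 : (0 : ℝ) ≤ g.t2) (hr : r ∈ Icc (0 : ℝ) g.t2) :
    pv g.bq r * pv g.q4 r ≤ pv g.bp r := by
  obtain ⟨T, hT, rfl⟩ := map_mem t0 hr
  have h := hP.h4.t hT
  simp only [val_sub, val_mul, val_pe, val_tT] at h
  linarith

theorem triv1 {r : ℝ} (hlt : (g.t2 : ℝ) < r) (hr1 : r ≤ 1) : pv g.bq r ≤ g.A1' r :=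
  triv_aux (f := pv g.bq) hB
    (hP.h1C.imp id fun h1 T hT => by
      have h := h1.t hT
      simp only [val_sub, val_pe, val_dE, val_tC, val_kC] at h
      linarith) hlt hr1

theorem triv2 {r : ℝ} (hlt : (g.t2 : ℝ) < r) (hr1 : r ≤ 1) : pv g.mb r * 2 ≤ g.e' r :=
  triv_aux (f := fun r => pv g.mb r * 2) hB
    (hP.h2C.imp id fun h1 T hT => by
      have h := h1.t hT
      simp only [val_sub, val_mul, val_two, val_pe, val_dE, val_tC, val_kC] at h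
      linarith) hlt hr1

theorem triv3 {r : ℝ} (hlt : (g.t2 : ℝ) < r) (hr1 : r ≤ 1) : pv g.bq r ≤ g.A' r :=
  triv_aux (f := pv g.bq) hB
    (hP.h3C.imp id fun h1 T hT => by
      have h := h1.t hT
      simp only [val_sub, val_pe, val_dE, val_tC, val_kC] at h
      linarith) hlt hr1

omit hB in
theorem bq_nn {r : ℝ} (hr : r ∈ Icc (0 : ℝ) 1) : 0 ≤ pv g.bq r := by
  have h := hP.bq.t hr
  rwa [val_pe, val_wT] at h

omit hB in
theorem b_nn {r : ℝ} (hr : r ∈ Icc (0 : ℝ) 1) : 0 ≤ pv g.bp r := by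
  have h := hP.b0.t hr
  rwa [val_pe, val_wT] at h

theorem A1'_nn {r : ℝ} (hr : r ∈ Icc (0 : ℝ) 1) : 0 ≤ g.A1' r :=
  all_aux (G := fun r k => pv g.ap r + pv g.ap2 k) hB
    (fun T hT => by
      have h := hP.a0O.t hT
      have h1 := pv_evq g.ap2 0
      rw [hB.z1] at h1
      have h2 : pv g.ap2 0 = 0 := by simpa using h1
      simp only [val_pe, val_tO] at h
      simp only [h2, add_zero]
      exact h)
    (fun T hT => by
      have h := hP.a0D.t hT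
      simp only [val_dE, val_tD, val_kD] at h
      exact h) hr

theorem A'_nn {r : ℝ} (hr : r ∈ Icc (0 : ℝ) 1) : 0 ≤ g.A' r :=
  all_aux (G := fun r k => pv g.cp r + pv g.cp2 k) hB
    (fun T hT => by
      have h := hP.c0O.t hT
      have h1 := pv_evq g.cp2 0
      rw [hB.z3] at h1
      have h2 : pv g.cp2 0 = 0 := by simpa using h1
      simp only [val_pe, val_tO] at h
      simp only [h2, add_zero]
      exact h)
    (fun T hT => by
      have h := hP.c0D.t hT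
      simp only [val_dE, val_tD, val_kD] at h
      exact h) hr

theorem e'_nn {r : ℝ} (hr : r ∈ Icc (0 : ℝ) 1) : 0 ≤ g.e' r :=
  all_aux (G := fun r k => pv g.ep r + pv g.ep2 k) hB
    (fun T hT => by
      have h := hP.e0O.t hT
      have h1 := pv_evq g.ep2 0
      rw [hB.z2] at h1
      have h2 : pv g.ep2 0 = 0 := by simpa using h1
      simp only [val_pe, val_tO] at h
      simp only [h2, add_zero]
      exact h)
    (fun T hT => by
      have h := hP.e0D.t hT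
      simp only [val_dE, val_tD, val_kD] at h
      exact h) hr

end

theorem A1_zero (hB : g.Bd) : g.A1 0 = 0 := kn_zero hB.τ0'
theorem A_zero (hB : g.Bd) : g.A 0 = 0 := kn_zero hB.τ0'
theorem e_zero (hB : g.Bd) : g.e 0 = 0 := kn_zero hB.τ0'
theorem B_zero : g.B 0 = 0 := pri_zero _
theorem A1_deriv (hB : g.Bd) (r : ℝ) : HasDerivAt g.A1 (g.A1' r) r := kn_deriv hB.z1 r
theorem A_deriv (hB : g.Bd) (r : ℝ) : HasDerivAt g.A (g.A' r) r := kn_deriv hB.z3 r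
theorem e_deriv (hB : g.Bd) (r : ℝ) : HasDerivAt g.e (g.e' r) r := kn_deriv hB.z2 r
theorem B_deriv (r : ℝ) : HasDerivAt g.B (pv g.bp r) r := hasDerivAt_pri _ r
theorem A1_cont : Continuous g.A1 := kn_cont
theorem A_cont : Continuous g.A := kn_cont
theorem e_cont : Continuous g.e := kn_cont
theorem B_cont : Continuous g.B := continuous_pv _

/-- monotonicity from the derivative -/
theorem mono_of {f f' : ℝ → ℝ} (hd : ∀ r, HasDerivAt f (f' r) r)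
    (hn : ∀ r ∈ Icc (0 : ℝ) 1, 0 ≤ f' r) : MonotoneOn f (Icc (0 : ℝ) 1) := by
  refine monotoneOn_of_deriv_nonneg (convex_Icc _ _) (fun z _ =>
    (hd z).continuousAt.continuousWithinAt)
    (fun z _ => (hd z).differentiableAt.differentiableWithinAt) fun z hz => ?_
  rw [interior_Icc] at hz
  rw [(hd z).deriv]
  exact hn z (Ioo_subset_Icc_self hz)

section

variable (hP : g.Pos) (hB : g.Bd)
include hP hB

theorem A1_mono : MonotoneOn g.A1 (Icc (0 : ℝ) 1) := mono_of (A1_deriv hB) fun _ => A1'_nn hP hB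
theorem A_mono : MonotoneOn g.A (Icc (0 : ℝ) 1) := mono_of (A_deriv hB) fun _ => A'_nn hP hB
theorem e_mono : MonotoneOn g.e (Icc (0 : ℝ) 1) := mono_of (e_deriv hB) fun _ => e'_nn hP hB
omit hB in
theorem B_mono : MonotoneOn g.B (Icc (0 : ℝ) 1) := mono_of B_deriv fun _ => b_nn hP

theorem A1_nn {r : ℝ} (hr : r ∈ Icc (0 : ℝ) 1) : 0 ≤ g.A1 r := by
  have := A1_mono hP hB ⟨le_rfl, zero_le_one⟩ hr hr.1
  rwa [A1_zero hB] at this

theorem A_nn {r : ℝ} (hr : r ∈ Icc (0 : ℝ) 1) : 0 ≤ g.A r := by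
  have := A_mono hP hB ⟨le_rfl, zero_le_one⟩ hr hr.1
  rwa [A_zero hB] at this

theorem e_nn {r : ℝ} (hr : r ∈ Icc (0 : ℝ) 1) : 0 ≤ g.e r := by
  have := e_mono hP hB ⟨le_rfl, zero_le_one⟩ hr hr.1
  rwa [e_zero hB] at this

omit hB in
theorem B_nn {r : ℝ} (hr : r ∈ Icc (0 : ℝ) 1) : 0 ≤ g.B r := by
  have := B_mono hP ⟨le_rfl, zero_le_one⟩ hr hr.1
  rwa [B_zero] at this

theorem kn_one {l l2 : List ℚ} : kn l l2 (g.τ : ℝ) 1
    = ((evq (pri l) 1 + evq (pri l2) (1 - g.τ) : ℚ) : ℝ) := by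
  have h1 : (g.τ : ℝ) ≤ 1 := hB.τt'.trans hB.t1'
  rw [kn_hi h1]
  have e1 := pv_evq (pri l) 1
  have e2 := pv_evq (pri l2) (1 - g.τ)
  push_cast at e1 e2 ⊢
  rw [e1, e2]

theorem A_le {r : ℝ} (hr : r ∈ Icc (0 : ℝ) 1) : g.A r ≤ 81 / 50 := by
  refine (A_mono hP hB hr ⟨zero_le_one, le_rfl⟩ hr.2).trans ?_
  unfold A
  rw [kn_one hP hB]
  have := hB.c1
  have h2 : ((evq (pri g.cp) 1 + evq (pri g.cp2) (1 - g.τ) : ℚ) : ℝ) ≤ ((81 / 50 : ℚ) : ℝ) := by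
    exact_mod_cast this
  push_cast at h2 ⊢
  exact h2

theorem E_le {r : ℝ} (hr : r ∈ Icc (0 : ℝ) 1) : g.e r + g.A1 r ≤ 81 / 50 := by
  refine (add_le_add (e_mono hP hB hr ⟨zero_le_one, le_rfl⟩ hr.2)
    (A1_mono hP hB hr ⟨zero_le_one, le_rfl⟩ hr.2)).trans ?_
  unfold A1 e
  rw [kn_one hP hB, kn_one hP hB]
  have := hB.a1
  have h2 : ((evq (pri g.ap) 1 + evq (pri g.ap2) (1 - g.τ)
    + (evq (pri g.ep) 1 + evq (pri g.ep2) (1 - g.τ)) : ℚ) : ℝ) ≤ ((81 / 50 : ℚ) : ℝ) := by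
    exact_mod_cast this
  push_cast at h2 ⊢
  linarith

/-- the exponential of the exponent `A` -/
theorem exp_A {r : ℝ} (hr : r ∈ Icc (0 : ℝ) 1) : Real.exp (g.A r) ≤ pv g.kA r := by
  refine (exp_t5 (A_nn hP hB hr) (A_le hP hB hr)).trans ?_
  have h := all_aux (G := fun r k => pv g.kA r - t5 (pv (pri g.cp) r + pv (pri g.cp2) k)) hB
    (fun T hT => by
      have h := hP.kAO.t hT
      simp only [eA, val_sub, val_T5, val_pE, val_pe, val_tO, val_qc] at h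
      simpa using h)
    (fun T hT => by
      have h := hP.kAD.t hT
      simp only [eA, val_sub, val_T5, val_pE, val_pe, val_tD, val_kD] at h
      exact h) hr
  unfold A kn
  linarith

/-- the exponential of the second factor -/
theorem exp_q {r : ℝ} (hr : r ∈ Icc (0 : ℝ) 1) :
    Real.exp (g.e r + g.A1 r - (g.A r + r ^ 2 * g.B r)) ≤ pv g.kq r := by
  have hy : 0 ≤ g.A r + r ^ 2 * g.B r :=
    add_nonneg (A_nn hP hB hr) (mul_nonneg (sq_nonneg r) (B_nn hP hr))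
  have h1 := exp_t5 (add_nonneg (e_nn hP hB hr) (A1_nn hP hB hr)) (E_le hP hB hr)
  have h := all_aux (G := fun r k => pv g.kq r * (1 + (pv (pri g.cp) r + pv (pri g.cp2) k
      + r ^ 2 * pv (pri g.bp) r) + (pv (pri g.cp) r + pv (pri g.cp2) k
      + r ^ 2 * pv (pri g.bp) r) ^ 2 / 2 + (pv (pri g.cp) r + pv (pri g.cp2) k
      + r ^ 2 * pv (pri g.bp) r) ^ 3 / 6)
      - t5 (pv (pri g.ep) r + pv (pri g.ep2) k + (pv (pri g.ap) r + pv (pri g.ap2) k))) hB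
    (fun T hT => by
      have h := hP.kqO.t hT
      simp only [eQ, val_sub, val_mul, val_add, val_pow, val_T5, val_T3, val_pE, val_pe, val_tO,
        val_qc] at h
      simpa using h)
    (fun T hT => by
      have h := hP.kqD.t hT
      simp only [eQ, val_sub, val_mul, val_add, val_pow, val_T5, val_T3, val_pE, val_pe, val_tD,
        val_kD] at h
      exact h) hr
  have e1 : g.A r = pv (pri g.cp) r + pv (pri g.cp2) (max 0 (r - (g.τ : ℝ))) := rfl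
  have e2 : g.e r = pv (pri g.ep) r + pv (pri g.ep2) (max 0 (r - (g.τ : ℝ))) := rfl
  have e3 : g.A1 r = pv (pri g.ap) r + pv (pri g.ap2) (max 0 (r - (g.τ : ℝ))) := rfl
  have e4 : g.B r = pv (pri g.bp) r := rfl
  rw [← e1, ← e2, ← e3, ← e4] at h
  have h3 := t3_le hy
  set Y := g.A r + r ^ 2 * g.B r with hY
  have h4 : 0 < 1 + Y + Y ^ 2 / 2 + Y ^ 3 / 6 := by positivity
  have q0 : 0 ≤ pv g.kq r := by
    by_contra hc
    push Not at hc
    have h5 := mul_neg_of_neg_of_pos hc h4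
    have h6 := Real.exp_pos (g.e r + g.A1 r)
    linarith
  have h5 := mul_le_mul_of_nonneg_left h3 q0
  have h6 : Real.exp (g.e r + g.A1 r) ≤ pv g.kq r * Real.exp Y := by linarith
  rw [Real.exp_sub, div_le_iff₀ (Real.exp_pos _)]
  exact h6

theorem cl_le {r : ℝ} (hr : r ∈ Icc (0 : ℝ) 1) : pv g.cl r ≤ g.A r := by
  have h := all_aux (G := fun r k => pv (pri g.cp) r + pv (pri g.cp2) k - pv g.cl r) hB
    (fun T hT => by
      have h := hP.clO.t hT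
      simp only [eL, val_sub, val_pE, val_pe, val_tO, val_qc] at h
      simpa using h)
    (fun T hT => by
      have h := hP.clD.t hT
      simp only [eL, val_sub, val_pE, val_pe, val_tD, val_kD] at h
      exact h) hr
  unfold A kn
  linarith

omit hB in
theorem cl_nn {r : ℝ} (hr : r ∈ Icc (0 : ℝ) 1) : 0 ≤ pv g.cl r := by
  have h := hP.cl0.t hr
  rwa [val_pe, val_wT] at h

theorem A_le_A1 {r : ℝ} (hr : r ∈ Icc (0 : ℝ) 1) : g.A r ≤ g.A1 r := by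
  have h := all_aux (G := fun r k => (pv (pri g.ap) r + pv (pri g.ap2) k)
      - (pv (pri g.cp) r + pv (pri g.cp2) k)) hB
    (fun T hT => by
      have h := hP.acO.t hT
      simp only [val_sub, val_pE, val_tO, val_qc] at h
      simpa using h)
    (fun T hT => by
      have h := hP.acD.t hT
      simp only [val_sub, val_pE, val_tD, val_kD] at h
      exact h) hr
  unfold A A1 kn
  linarith

/-- the exponent is at least `A t` -/
theorem A_le_X {t s : ℝ} (ht : t ∈ Icc (0 : ℝ) 1) (hs : s ∈ Icc 0 t) : g.A t ≤ g.X t s := by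
  have hs' : s ∈ Icc (0 : ℝ) 1 := ⟨hs.1, hs.2.trans ht.2⟩
  have h1 := A_le_A1 hP hB hs'
  have h2 := B_mono hP hs' ht hs.2
  have h3 := mul_nonneg (sq_nonneg s) (sub_nonneg.2 h2)
  unfold X
  linarith

theorem X_nn {t s : ℝ} (ht : t ∈ Icc (0 : ℝ) 1) (hs : s ∈ Icc 0 t) : 0 ≤ g.X t s :=
  (A_nn hP hB ht).trans (A_le_X hP hB ht hs)

/-- the exponential of `s² B t` -/
theorem exp_B {t s : ℝ} (ht : t ∈ Icc (0 : ℝ) 1) (hs : s ∈ Icc (0 : ℝ) 1) :
    Real.exp (s ^ 2 * g.B t) ≤ 1 + (g.ρ0 : ℝ) * (s ^ 2 * g.B t) := by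
  have b0 := B_nn hP ht
  have b1 : g.B t ≤ (g.y0 : ℝ) := by
    refine (B_mono hP ht ⟨zero_le_one, le_rfl⟩ ht.2).trans ?_
    have e1 := pv_evq (pri g.bp) 1
    push_cast at e1
    unfold B
    rw [e1]
    exact_mod_cast hB.b1
  have y0 : (0 : ℝ) < (g.y0 : ℝ) := by exact_mod_cast hB.y0
  have y1 : (g.y0 : ℝ) ≤ 81 / 50 := by
    have : ((g.y0 : ℚ) : ℝ) ≤ ((81 / 50 : ℚ) : ℝ) := by exact_mod_cast hB.y1
    push_cast at this
    exact this
  have s1 : s ^ 2 ≤ 1 := pow_le_one₀ hs.1 hs.2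
  set y := s ^ 2 * g.B t with hy
  have hy0 : 0 ≤ y := mul_nonneg (sq_nonneg s) b0
  have hy1 : y ≤ (g.y0 : ℝ) := by
    have := mul_le_mul_of_nonneg_right s1 b0
    linarith
  have h1 := exp_t5 y0.le y1
  unfold t5 at h1
  have h2 : (g.y0 : ℝ) + (g.y0 : ℝ) ^ 2 / 2 + (g.y0 : ℝ) ^ 3 / 6 + (g.y0 : ℝ) ^ 4 / 24
      + (g.y0 : ℝ) ^ 5 / 88 ≤ (g.ρ0 : ℝ) * (g.y0 : ℝ) := by exact_mod_cast hB.ρ
  have h3 : Real.exp (g.y0 : ℝ) ≤ 1 + (g.ρ0 : ℝ) * (g.y0 : ℝ) := by linarith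
  -- convexity
  have h4 := convexOn_exp.2 (mem_univ (0 : ℝ)) (mem_univ (g.y0 : ℝ))
    (show (0 : ℝ) ≤ 1 - y / (g.y0 : ℝ) by rw [sub_nonneg, div_le_one y0]; exact hy1)
    (show (0 : ℝ) ≤ y / (g.y0 : ℝ) from div_nonneg hy0 y0.le) (by ring)
  simp only [smul_eq_mul, mul_zero, zero_add, Real.exp_zero, mul_one] at h4
  have e : y / (g.y0 : ℝ) * (g.y0 : ℝ) = y := div_mul_cancel₀ y y0.ne'
  rw [e] at h4
  have h5 := mul_le_mul_of_nonneg_left h3 (div_nonneg hy0 y0.le)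
  have e2 : y / (g.y0 : ℝ) * (1 + (g.ρ0 : ℝ) * (g.y0 : ℝ))
      = y / (g.y0 : ℝ) + (g.ρ0 : ℝ) * (y / (g.y0 : ℝ) * (g.y0 : ℝ)) := by ring
  rw [e2, e] at h5
  linarith

omit hP in
theorem kw_le {w : ℝ} (hw : 0 ≤ w) : g.kw w ≤ 1 := by
  have h6 : (0 : ℝ) ≤ (g.th : ℝ) := by exact_mod_cast hB.th0
  have h7 := mul_nonneg hw h6
  unfold kw
  linarith

omit hP in
theorem le_kw {w : ℝ} (hw : 0 ≤ w) : 1 - w / 2 ≤ g.kw w := by
  have h6 : (g.th : ℝ) ≤ 1 := by exact_mod_cast hB.th1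
  have h7 := mul_le_mul_of_nonneg_left h6 hw
  unfold kw
  linarith

omit hP in
theorem kw_nn {w : ℝ} (hw : w ∈ Icc (0 : ℝ) 1) : 0 ≤ g.kw w := by
  have := le_kw hB hw.1
  linarith [hw.2]

/-- the exponential of the exponent of the density factor -/
theorem exp_X {t s w : ℝ} (ht : t ∈ Icc (0 : ℝ) 1) (hs : s ∈ Icc 0 t) (hw : w ∈ Icc (0 : ℝ) 1) :
    Real.exp (g.kw w * g.X t s + g.e s)
      ≤ Real.exp (g.kw w * g.A t) * (pv g.kq s * (1 + (g.ρ0 : ℝ) * (s ^ 2 * g.B t))) := by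
  have hs' : s ∈ Icc (0 : ℝ) 1 := ⟨hs.1, hs.2.trans ht.2⟩
  have h1 := A_le_X hP hB ht hs
  have h2 : g.kw w * g.X t s + g.e s
      ≤ g.kw w * g.A t + ((g.e s + g.A1 s - (g.A s + s ^ 2 * g.B s)) + s ^ 2 * g.B t) := by
    have h3 : g.X t s - g.A t
        = g.A1 s - (g.A s + s ^ 2 * g.B s) + s ^ 2 * g.B t := by unfold X; ring
    have h4 : g.kw w * g.X t s + g.e s = g.kw w * g.A t
        + ((g.X t s - g.A t) + g.e s) - w * (g.th : ℝ) / 2 * (g.X t s - g.A t) := by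
      unfold kw
      ring
    have h5 : 0 ≤ w * (g.th : ℝ) / 2 * (g.X t s - g.A t) := by
      have h6 : (0 : ℝ) ≤ (g.th : ℝ) := by exact_mod_cast hB.th0
      have h7 := mul_nonneg hw.1 h6
      exact mul_nonneg (by linarith) (by linarith)
    rw [h4]
    linarith
  refine (Real.exp_le_exp.2 h2).trans ?_
  rw [Real.exp_add, Real.exp_add]
  refine mul_le_mul_of_nonneg_left ?_ (Real.exp_pos _).le
  have h6 := exp_q hP hB hs'
  exact mul_le_mul h6 (exp_B hP hB ht hs') (Real.exp_pos _).le ((Real.exp_pos _).le.trans h6)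

end

end TDt5

end Pool.Agent.RZ.RCE
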